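import Pool.Agent.Lib.P65S.Defs

/-!
`k`-CNFs are the `k`-local functions; negations.
-/

namespace P65S

open P65 P65T

theorem loc_of_cnf {k : ℕ} {ι : Type} {g : (ι → Bool) → Bool} (h : IsCNF k g) : IsLoc k g := by
  classical
  obtain ⟨F, h1, h2⟩ := h
  intro x hx
  have h3 : ¬ ∀ c ∈ F, ∃ l ∈ c, x l.1 = l.2 := by
    rw [← h2 x, hx]
    simp
  push Not at h3
  obtain ⟨c, hc, h4⟩ := h3
  refine ⟨(c.map Prod.fst).toFinset, ?_, ?_⟩
  · refine (List.toFinset_card_le _).trans ?_
    rw [List.length_map]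
    exact h1 c hc
  · intro y hy
    rw [← Bool.not_eq_true, h2 y]
    intro h5
    obtain ⟨l, hl, h6⟩ := h5 c hc
    refine h4 l hl ?_
    rw [← h6]
    exact (hy l.1 (by
      rw [List.mem_toFinset]
      exact List.mem_map.2 ⟨l, hl, rfl⟩)).symm

theorem cnf_of_loc {k : ℕ} {ι : Type} [Fintype ι] {g : (ι → Bool) → Bool} (h : IsLoc k g) :
    IsCNF k g := by
  classical
  choose K hK hK2 using h
  let KK : (ι → Bool) → List (ι × Bool) := fun x =>
    if hx : g x = false then (K x hx).toList.map (fun i => (i, !x i)) else []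
  refine ⟨((Finset.univ.filter fun x => g x = false).toList).map KK, ?_, ?_⟩
  · intro c hc
    obtain ⟨x, hx, rfl⟩ := List.mem_map.1 hc
    rw [Finset.mem_toList, Finset.mem_filter] at hx
    simp only [KK, dif_pos hx.2, List.length_map, Finset.length_toList]
    exact hK x hx.2
  · intro y
    constructor
    · intro hy c hc
      obtain ⟨x, hx, rfl⟩ := List.mem_map.1 hc
      rw [Finset.mem_toList, Finset.mem_filter] at hx
      by_contra hcon
      push Not at hcon
      have : g y = false := by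
        refine hK2 x hx.2 y (fun i hi => ?_)
        have h1 := hcon (i, !x i) (by
          simp only [KK, dif_pos hx.2]
          exact List.mem_map.2 ⟨i, Finset.mem_toList.2 hi, rfl⟩)
        simp only at h1
        cases hxi : x i <;> cases hyi : y i <;> simp_all
      rw [hy] at this
      exact absurd this (by simp)
    · intro hy
      by_contra hcon
      have hgy : g y = false := by simpa using hcon
      obtain ⟨l, hl, h1⟩ := hy (KK y) (List.mem_map.2 ⟨y, by
        rw [Finset.mem_toList, Finset.mem_filter]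
        exact ⟨Finset.mem_univ _, hgy⟩, rfl⟩)
      simp only [KK, dif_pos hgy] at hl
      obtain ⟨i, _, rfl⟩ := List.mem_map.1 hl
      simp only at h1
      cases hyi : y i <;> simp_all

theorem cnf_iff_loc {k : ℕ} {ι : Type} [Fintype ι] {g : (ι → Bool) → Bool} :
    IsCNF k g ↔ IsLoc k g := ⟨loc_of_cnf, cnf_of_loc⟩

theorem dnf_iff_cnf_bnot {k : ℕ} {ι : Type} {g : (ι → Bool) → Bool} :
    IsDNF k g ↔ IsCNF k (bnot g) := by
  constructor
  · rintro ⟨F, h1, h2⟩
    refine ⟨F.map (fun c => c.map fun l => (l.1, !l.2)), ?_, ?_⟩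
    · intro c hc
      obtain ⟨c', hc', rfl⟩ := List.mem_map.1 hc
      rw [List.length_map]
      exact h1 c' hc'
    · intro x
      have e : bnot g x = true ↔ ¬ g x = true := by simp [bnot]
      rw [e, h2 x]
      push Not
      constructor
      · intro h c hc
        obtain ⟨c', hc', rfl⟩ := List.mem_map.1 hc
        obtain ⟨l, hl, h3⟩ := h c' hc'
        refine ⟨(l.1, !l.2), List.mem_map.2 ⟨l, hl, rfl⟩, ?_⟩
        simp only
        cases hx : x l.1 <;> cases hl2 : l.2 <;> simp_all
      · intro h c hc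
        obtain ⟨l', hl', h3⟩ := h _ (List.mem_map.2 ⟨c, hc, rfl⟩)
        obtain ⟨l, hl, rfl⟩ := List.mem_map.1 hl'
        refine ⟨l, hl, ?_⟩
        simp only at h3
        rw [h3]
        cases l.2 <;> simp
  · rintro ⟨F, h1, h2⟩
    refine ⟨F.map (fun c => c.map fun l => (l.1, !l.2)), ?_, ?_⟩
    · intro c hc
      obtain ⟨c', hc', rfl⟩ := List.mem_map.1 hc
      rw [List.length_map]
      exact h1 c' hc'
    · intro x
      have e : g x = true ↔ ¬ bnot g x = true := by simp [bnot]
      rw [e, h2 x]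
      push Not
      constructor
      · rintro ⟨c, hc, h3⟩
        refine ⟨_, List.mem_map.2 ⟨c, hc, rfl⟩, ?_⟩
        intro l' hl'
        obtain ⟨l, hl, rfl⟩ := List.mem_map.1 hl'
        have := h3 l hl
        simp only
        cases hx : x l.1 <;> cases hl2 : l.2 <;> simp_all
      · rintro ⟨c', hc', h3⟩
        obtain ⟨c, hc, rfl⟩ := List.mem_map.1 hc'
        refine ⟨c, hc, ?_⟩
        intro l hl
        have := h3 _ (List.mem_map.2 ⟨l, hl, rfl⟩)
        simp only at this
        rw [this]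
        cases l.2 <;> simp

theorem bnot_bnot' {ι : Type} (g : (ι → Bool) → Bool) : bnot (bnot g) = g := by
  funext x
  simp [bnot]

/-- An AND of `k`-DNFs is the negation of an OR of `k`-CNFs. -/
theorem andOf_dnf_iff {k : ℕ} {ι : Type} {f : (ι → Bool) → Bool} {s : ℕ} :
    AndOf (IsDNF k) (bnot f) s ↔ OrOf (IsCNF k) f s := by
  constructor
  · rintro ⟨gs, h1, h2, h3⟩
    refine ⟨gs.map bnot, by rw [List.length_map]; exact h1, ?_, ?_⟩
    · intro g hg
      obtain ⟨g', hg', rfl⟩ := List.mem_map.1 hg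
      exact dnf_iff_cnf_bnot.1 (h2 g' hg')
    · intro x
      have e : f x = true ↔ ¬ bnot f x = true := by simp [bnot]
      rw [e, h3 x]
      push Not
      constructor
      · rintro ⟨g, hg, h4⟩
        exact ⟨bnot g, List.mem_map.2 ⟨g, hg, rfl⟩, by simpa [bnot] using h4⟩
      · rintro ⟨g', hg', h4⟩
        obtain ⟨g, hg, rfl⟩ := List.mem_map.1 hg'
        exact ⟨g, hg, by simpa [bnot] using h4⟩
  · rintro ⟨gs, h1, h2, h3⟩
    refine ⟨gs.map bnot, by rw [List.length_map]; exact h1, ?_, ?_⟩
    · intro g hg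
      obtain ⟨g', hg', rfl⟩ := List.mem_map.1 hg
      rw [dnf_iff_cnf_bnot, bnot_bnot']
      exact h2 g' hg'
    · intro x
      have e : bnot f x = true ↔ ¬ f x = true := by simp [bnot]
      rw [e, h3 x]
      push Not
      constructor
      · intro h g' hg'
        obtain ⟨g, hg, rfl⟩ := List.mem_map.1 hg'
        simpa [bnot] using h g hg
      · intro h g hg
        simpa [bnot] using h _ (List.mem_map.2 ⟨g, hg, rfl⟩)

theorem orOf_congr {ι : Type} {G G' : ((ι → Bool) → Bool) → Prop} (h : ∀ g, G g ↔ G' g)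
    {f : (ι → Bool) → Bool} {s : ℕ} : OrOf G f s ↔ OrOf G' f s := by
  constructor
  · rintro ⟨gs, h1, h2, h3⟩
    exact ⟨gs, h1, fun g hg => (h g).1 (h2 g hg), h3⟩
  · rintro ⟨gs, h1, h2, h3⟩
    exact ⟨gs, h1, fun g hg => (h g).2 (h2 g hg), h3⟩

/-- Fixing variables of a `k`-local function. -/
theorem loc_comp {k : ℕ} {ι κ : Type} {g : (κ → Bool) → Bool} (h : IsLoc k g)
    (e : (ι → Bool) → κ → Bool) (π : κ → Option ι)
    (he : ∀ x y : ι → Bool, ∀ j : κ, (∀ i, π j = some i → x i = y i) → e x j = e y j) :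
    IsLoc k (fun x => g (e x)) := by
  classical
  intro x hx
  obtain ⟨K, h1, h2⟩ := h (e x) hx
  refine ⟨(K.image π).biUnion (fun o => o.toFinset), ?_, ?_⟩
  · calc ((K.image π).biUnion (fun o => o.toFinset)).card
        ≤ (K.image π).card * 1 := Finset.card_biUnion_le_card_mul _ _ _ (by
          intro o _
          cases o <;> simp)
      _ ≤ K.card := by rw [mul_one]; exact Finset.card_image_le
      _ ≤ k := h1
  · intro y hy
    refine h2 (e y) (fun j hj => ?_)
    refine he y x j (fun i hi => ?_)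
    refine hy i ?_
    rw [Finset.mem_biUnion]
    exact ⟨π j, Finset.mem_image.2 ⟨j, hj, rfl⟩, by rw [hi]; simp⟩

end P65S
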