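import Pool.Agent.Lib.P65.CircDefs

/-!
The clauses of one gate (with the bound 3 on the width). `s` is the number of gates of the circuit, `g < s` the number of the
gate `G`, the variables are `a i` (`i < s`, values of the gates) and `a (s + t)` (`t < k`, the
nondeterministic bits). Clauses (each literal is a pair (variable, value)), with gating symbol
`cst true` except for the inputs `inp i`, `i < m`:
* `inp i`, `i < m`: `(lit i, [(g, true)])`, `(nlit i, [(g, false)])`;
* `inp i`, `m ≤ i < m + k`: `[(g,false),(s+(i-m),true)]`, `[(g,true),(s+(i-m),false)]`;
  `inp i`, `i ≥ m + k`: `[(g,false)]`;
* `cst b`: `[(g,b)]`;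
* `neg a`: if `a < g`: `[(g,true),(a,true)]`, `[(g,false),(a,false)]`; else `[(g,true)]`;
* `and a b`: if `a < g` and `b < g`: `[(g,false),(a,true)]`, `[(g,false),(b,true)]`,
  `[(g,true),(a,false),(b,false)]`; else `[(g,false)]`;
* `or a b`: if both `< g`: `[(g,true),(a,false)]`, `[(g,true),(b,false)]`,
  `[(g,false),(a,true),(b,true)]`; if only `a < g`: `v_g = v_a`; if only `b < g`: `v_g = v_b`;
  if none: `[(g,false)]`.
-/

namespace P65S

open P65

namespace TseBAux

theorem getD_ofFn (g j : ℕ) (a : ℕ → Bool) :
    (List.ofFn (fun i : Fin g => a i.1)).getD j false = if j < g then a j else false := by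
  rw [List.getD_eq_getElem?_getD, List.getElem?_ofFn]
  split_ifs with h
  · rfl
  · rfl

theorem getD_inp (m k s i : ℕ) (a : ℕ → Bool) (x : List Bool) (hx : x.length = m) :
    (x ++ List.ofFn (fun t : Fin k => a (s + t.1))).getD i false =
      if i < m then x.getD i false else if i < m + k then a (s + (i - m)) else false := by
  have h0 := getD_ofFn k (i - m) (fun t => a (s + t))
  split_ifs with h1 h2
  · rw [List.getD_append _ _ _ _ (by omega)]
  · rw [List.getD_append_right _ _ _ _ (by omega), hx, h0, if_pos (by omega)]
  · rw [List.getD_append_right _ _ _ _ (by omega), hx, h0, if_neg (by omega)]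

/-- the clauses with the gating symbol `cst true` -/
def mk (L : List (List (ℕ × Bool))) : List (PS × List (ℕ × Bool)) := L.map (fun c => (PS.cst true, c))

theorem sat_mk (L : List (List (ℕ × Bool))) (x : List Bool) (a : ℕ → Bool) :
    (∀ cl ∈ mk L, cl.1.eval x = true → ∃ l ∈ cl.2, a l.1 = l.2) ↔
      ∀ c ∈ L, ∃ l ∈ c, a l.1 = l.2 := by
  unfold mk
  constructor
  · intro h c hc
    exact h (PS.cst true, c) (List.mem_map.2 ⟨c, hc, rfl⟩) rfl
  · intro h cl hcl _
    obtain ⟨c, hc, rfl⟩ := List.mem_map.1 hcl
    exact h c hc

/-- enough: clauses without gating -/
theorem of_plain {m k s g : ℕ} {G : Gate} (L : List (List (ℕ × Bool))) (h1 : L.length ≤ 3)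
    (h2 : ∀ c ∈ L, c ≠ [] ∧ c.length ≤ 3 ∧ ∀ l ∈ c, l.1 < s + k)
    (h3 : ∀ (x : List Bool), x.length = m → ∀ a : ℕ → Bool,
      ((∀ c ∈ L, ∃ l ∈ c, a l.1 = l.2) ↔
          a g = G.eval ∅ (x ++ List.ofFn (fun t : Fin k => a (s + t.1)))
            (List.ofFn (fun i : Fin g => a i.1)))) :
    ∃ Φ : List (PS × List (ℕ × Bool)), Φ.length ≤ 3 ∧
      (∀ cl ∈ Φ, cl.2 ≠ [] ∧ cl.2.length ≤ 3 ∧ ∀ l ∈ cl.2, l.1 < s + k) ∧
      ∀ (x : List Bool), x.length = m → ∀ a : ℕ → Bool,
        ((∀ cl ∈ Φ, cl.1.eval x = true → ∃ l ∈ cl.2, a l.1 = l.2) ↔
          a g = G.eval ∅ (x ++ List.ofFn (fun t : Fin k => a (s + t.1)))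
            (List.ofFn (fun i : Fin g => a i.1))) := by
  refine ⟨mk L, ?_, ?_, ?_⟩
  · unfold mk
    rw [List.length_map]
    exact h1
  · intro cl hcl
    obtain ⟨c, hc, rfl⟩ := List.mem_map.1 hcl
    exact h2 c hc
  · intro x hx a
    rw [sat_mk]
    exact h3 x hx a

end TseBAux

open TseBAux

theorem gate_clauses (m k s g : ℕ) (hs : g < s) (G : Gate) (hno : ∀ as, G ≠ Gate.orc as) :
    ∃ Φ : List (PS × List (ℕ × Bool)), Φ.length ≤ 3 ∧
      (∀ cl ∈ Φ, cl.2 ≠ [] ∧ cl.2.length ≤ 3 ∧ ∀ l ∈ cl.2, l.1 < s + k) ∧
      ∀ (x : List Bool), x.length = m → ∀ a : ℕ → Bool,
        ((∀ cl ∈ Φ, cl.1.eval x = true → ∃ l ∈ cl.2, a l.1 = l.2) ↔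
          a g = G.eval ∅ (x ++ List.ofFn (fun t : Fin k => a (s + t.1)))
            (List.ofFn (fun i : Fin g => a i.1))) := by
  cases G with
  | inp i =>
    by_cases h1 : i < m
    · refine ⟨[(PS.lit i, [(g, true)]), (PS.nlit i, [(g, false)])], by simp, ?_, ?_⟩
      · intro cl hcl
        simp only [List.mem_cons, List.not_mem_nil, or_false] at hcl
        rcases hcl with rfl | rfl
        · refine ⟨by simp, by simp, fun l hl => ?_⟩
          simp only [List.mem_cons, List.not_mem_nil, or_false] at hl
          subst hl
          change g < s + k
          omega
        · refine ⟨by simp, by simp, fun l hl => ?_⟩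
          simp only [List.mem_cons, List.not_mem_nil, or_false] at hl
          subst hl
          change g < s + k
          omega
      · intro x hx a
        simp only [Gate.eval, getD_inp m k s i a x hx, if_pos h1]
        simp only [List.mem_cons, List.not_mem_nil, or_false, forall_eq_or_imp, forall_eq,
          exists_eq_left, PS.eval]
        generalize x.getD i false = v
        generalize a g = w
        cases v <;> cases w <;> simp
    · by_cases h2 : i < m + k
      · refine of_plain [[(g, false), (s + (i - m), true)], [(g, true), (s + (i - m), false)]]
          (by simp) ?_ ?_
        · intro c hc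
          simp only [List.mem_cons, List.not_mem_nil, or_false] at hc
          rcases hc with rfl | rfl
          · refine ⟨by simp, by simp, fun l hl => ?_⟩
            simp only [List.mem_cons, List.not_mem_nil, or_false] at hl
            rcases hl with rfl | rfl
            · change g < s + k; omega
            · change s + (i - m) < s + k; omega
          · refine ⟨by simp, by simp, fun l hl => ?_⟩
            simp only [List.mem_cons, List.not_mem_nil, or_false] at hl
            rcases hl with rfl | rfl
            · change g < s + k; omega
            · change s + (i - m) < s + k; omega
        · intro x hx a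
          simp only [Gate.eval, getD_inp m k s i a x hx, if_neg h1, if_pos h2]
          simp only [List.mem_cons, List.not_mem_nil, or_false, forall_eq_or_imp, forall_eq,
            exists_eq_or_imp, exists_eq_left]
          generalize a (s + (i - m)) = v
          generalize a g = w
          cases v <;> cases w <;> simp
      · refine of_plain [[(g, false)]] (by simp) ?_ ?_
        · intro c hc
          simp only [List.mem_cons, List.not_mem_nil, or_false] at hc
          subst hc
          refine ⟨by simp, by simp, fun l hl => ?_⟩
          simp only [List.mem_cons, List.not_mem_nil, or_false] at hl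
          subst hl
          change g < s + k
          omega
        · intro x hx a
          simp only [Gate.eval, getD_inp m k s i a x hx, if_neg h1, if_neg h2]
          simp only [List.mem_cons, List.not_mem_nil, or_false, forall_eq, exists_eq_left]
  | cst b =>
    refine of_plain [[(g, b)]] (by simp) ?_ ?_
    · intro c hc
      simp only [List.mem_cons, List.not_mem_nil, or_false] at hc
      subst hc
      refine ⟨by simp, by simp, fun l hl => ?_⟩
      simp only [List.mem_cons, List.not_mem_nil, or_false] at hl
      subst hl
      change g < s + k
      omega
    · intro x hx a
      simp only [Gate.eval, List.mem_cons, List.not_mem_nil, or_false, forall_eq, exists_eq_left]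
  | neg p =>
    by_cases h1 : p < g
    · refine of_plain [[(g, true), (p, true)], [(g, false), (p, false)]] (by simp) ?_ ?_
      · intro c hc
        simp only [List.mem_cons, List.not_mem_nil, or_false] at hc
        rcases hc with rfl | rfl
        · refine ⟨by simp, by simp, fun l hl => ?_⟩
          simp only [List.mem_cons, List.not_mem_nil, or_false] at hl
          rcases hl with rfl | rfl
          · change g < s + k; omega
          · change p < s + k; omega
        · refine ⟨by simp, by simp, fun l hl => ?_⟩
          simp only [List.mem_cons, List.not_mem_nil, or_false] at hl
          rcases hl with rfl | rfl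
          · change g < s + k; omega
          · change p < s + k; omega
      · intro x hx a
        simp only [Gate.eval, getD_ofFn, if_pos h1]
        simp only [List.mem_cons, List.not_mem_nil, or_false, forall_eq_or_imp, forall_eq,
          exists_eq_or_imp, exists_eq_left]
        generalize a p = v
        generalize a g = w
        cases v <;> cases w <;> simp
    · refine of_plain [[(g, true)]] (by simp) ?_ ?_
      · intro c hc
        simp only [List.mem_cons, List.not_mem_nil, or_false] at hc
        subst hc
        refine ⟨by simp, by simp, fun l hl => ?_⟩
        simp only [List.mem_cons, List.not_mem_nil, or_false] at hl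
        subst hl
        change g < s + k
        omega
      · intro x hx a
        simp only [Gate.eval, getD_ofFn, if_neg h1]
        simp only [List.mem_cons, List.not_mem_nil, or_false, forall_eq, exists_eq_left,
          Bool.not_false]
  | and p q =>
    by_cases h1 : p < g ∧ q < g
    · obtain ⟨hp, hq⟩ := h1
      refine of_plain [[(g, false), (p, true)], [(g, false), (q, true)],
        [(g, true), (p, false), (q, false)]] (by simp) ?_ ?_
      · intro c hc
        simp only [List.mem_cons, List.not_mem_nil, or_false] at hc
        rcases hc with rfl | rfl | rfl
        · refine ⟨by simp, by simp, fun l hl => ?_⟩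
          simp only [List.mem_cons, List.not_mem_nil, or_false] at hl
          rcases hl with rfl | rfl
          · change g < s + k; omega
          · change p < s + k; omega
        · refine ⟨by simp, by simp, fun l hl => ?_⟩
          simp only [List.mem_cons, List.not_mem_nil, or_false] at hl
          rcases hl with rfl | rfl
          · change g < s + k; omega
          · change q < s + k; omega
        · refine ⟨by simp, by simp, fun l hl => ?_⟩
          simp only [List.mem_cons, List.not_mem_nil, or_false] at hl
          rcases hl with rfl | rfl | rfl
          · change g < s + k; omega
          · change p < s + k; omega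
          · change q < s + k; omega
      · intro x hx a
        simp only [Gate.eval, getD_ofFn, if_pos hp, if_pos hq]
        simp only [List.mem_cons, List.not_mem_nil, or_false, forall_eq_or_imp, forall_eq,
          exists_eq_or_imp, exists_eq_left]
        generalize a p = v
        generalize a q = u
        generalize a g = w
        cases v <;> cases w <;> cases u <;> simp
    · refine of_plain [[(g, false)]] (by simp) ?_ ?_
      · intro c hc
        simp only [List.mem_cons, List.not_mem_nil, or_false] at hc
        subst hc
        refine ⟨by simp, by simp, fun l hl => ?_⟩
        simp only [List.mem_cons, List.not_mem_nil, or_false] at hl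
        subst hl
        change g < s + k
        omega
      · intro x hx a
        simp only [Gate.eval, getD_ofFn]
        have h2 : ((if p < g then a p else false) && (if q < g then a q else false)) = false := by
          by_cases hp : p < g
          · have hq : ¬ q < g := fun hq => h1 ⟨hp, hq⟩
            rw [if_neg hq, Bool.and_false]
          · rw [if_neg hp, Bool.false_and]
        rw [h2]
        simp only [List.mem_cons, List.not_mem_nil, or_false, forall_eq, exists_eq_left]
  | or p q =>
    by_cases hp : p < g
    · by_cases hq : q < g
      · refine of_plain [[(g, true), (p, false)], [(g, true), (q, false)],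
          [(g, false), (p, true), (q, true)]] (by simp) ?_ ?_
        · intro c hc
          simp only [List.mem_cons, List.not_mem_nil, or_false] at hc
          rcases hc with rfl | rfl | rfl
          · refine ⟨by simp, by simp, fun l hl => ?_⟩
            simp only [List.mem_cons, List.not_mem_nil, or_false] at hl
            rcases hl with rfl | rfl
            · change g < s + k; omega
            · change p < s + k; omega
          · refine ⟨by simp, by simp, fun l hl => ?_⟩
            simp only [List.mem_cons, List.not_mem_nil, or_false] at hl
            rcases hl with rfl | rfl
            · change g < s + k; omega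
            · change q < s + k; omega
          · refine ⟨by simp, by simp, fun l hl => ?_⟩
            simp only [List.mem_cons, List.not_mem_nil, or_false] at hl
            rcases hl with rfl | rfl | rfl
            · change g < s + k; omega
            · change p < s + k; omega
            · change q < s + k; omega
        · intro x hx a
          simp only [Gate.eval, getD_ofFn, if_pos hp, if_pos hq]
          simp only [List.mem_cons, List.not_mem_nil, or_false, forall_eq_or_imp, forall_eq,
            exists_eq_or_imp, exists_eq_left]
          generalize a p = v
          generalize a q = u
          generalize a g = w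
          cases v <;> cases w <;> cases u <;> simp
      · refine of_plain [[(g, false), (p, true)], [(g, true), (p, false)]] (by simp) ?_ ?_
        · intro c hc
          simp only [List.mem_cons, List.not_mem_nil, or_false] at hc
          rcases hc with rfl | rfl
          · refine ⟨by simp, by simp, fun l hl => ?_⟩
            simp only [List.mem_cons, List.not_mem_nil, or_false] at hl
            rcases hl with rfl | rfl
            · change g < s + k; omega
            · change p < s + k; omega
          · refine ⟨by simp, by simp, fun l hl => ?_⟩
            simp only [List.mem_cons, List.not_mem_nil, or_false] at hl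
            rcases hl with rfl | rfl
            · change g < s + k; omega
            · change p < s + k; omega
        · intro x hx a
          simp only [Gate.eval, getD_ofFn, if_pos hp, if_neg hq]
          simp only [List.mem_cons, List.not_mem_nil, or_false, forall_eq_or_imp, forall_eq,
            exists_eq_or_imp, exists_eq_left]
          generalize a p = v
          generalize a g = w
          cases v <;> cases w <;> simp
    · by_cases hq : q < g
      · refine of_plain [[(g, false), (q, true)], [(g, true), (q, false)]] (by simp) ?_ ?_
        · intro c hc
          simp only [List.mem_cons, List.not_mem_nil, or_false] at hc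
          rcases hc with rfl | rfl
          · refine ⟨by simp, by simp, fun l hl => ?_⟩
            simp only [List.mem_cons, List.not_mem_nil, or_false] at hl
            rcases hl with rfl | rfl
            · change g < s + k; omega
            · change q < s + k; omega
          · refine ⟨by simp, by simp, fun l hl => ?_⟩
            simp only [List.mem_cons, List.not_mem_nil, or_false] at hl
            rcases hl with rfl | rfl
            · change g < s + k; omega
            · change q < s + k; omega
        · intro x hx a
          simp only [Gate.eval, getD_ofFn, if_neg hp, if_pos hq]
          simp only [List.mem_cons, List.not_mem_nil, or_false, forall_eq_or_imp, forall_eq,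
            exists_eq_or_imp, exists_eq_left]
          generalize a q = v
          generalize a g = w
          cases v <;> cases w <;> simp
      · refine of_plain [[(g, false)]] (by simp) ?_ ?_
        · intro c hc
          simp only [List.mem_cons, List.not_mem_nil, or_false] at hc
          subst hc
          refine ⟨by simp, by simp, fun l hl => ?_⟩
          simp only [List.mem_cons, List.not_mem_nil, or_false] at hl
          subst hl
          change g < s + k
          omega
        · intro x hx a
          simp only [Gate.eval, getD_ofFn, if_neg hp, if_neg hq]
          simp only [List.mem_cons, List.not_mem_nil, or_false, forall_eq, exists_eq_left,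
            Bool.or_false]
  | orc as => exact absurd rfl (hno as)

end P65S
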