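import Pool.Agent.Lib.P65.TseA
import Pool.Agent.Lib.P65S.TseB

/-!
Tseitin: the acceptance of a nondeterministic circuit as a CNF whose clauses are gated by
projection symbols. `Φ` := all clauses of `gate_clauses m k |C| g C[g]` (`g < |C|`), and for the
output `(cst true, [(|C|-1, true)])`; if `C = []` take the two clauses `[(k, true)]`,
`[(k, false)]` (variable number `k = |C| + k`; unsatisfiable, as `outC _ _ [] = false`).
Given `y`, let `a g = (runC ∅ (x++y) C).getD g false` for `g < |C|` and `a (|C|+t) = y.getD t false`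
(`runC_local`; `(runC ..).take g = List.ofFn (a ..)`); given `a`, let
`y = List.ofFn (fun t : Fin k => a (|C| + t))` (`runC_unique`, `outC_eq`).
-/

namespace P65S

open P65

private theorem tseitin_nil (m k : ℕ) :
    ∃ Φ : List (PS × List (ℕ × Bool)), Φ.length ≤ 3 * ([] : List Gate).length + 2 ∧
      (∀ cl ∈ Φ, cl.2 ≠ [] ∧ cl.2.length ≤ 3 ∧ ∀ l ∈ cl.2, l.1 < ([] : List Gate).length + k + 1) ∧
      ∀ x : List Bool, x.length = m →
        ((∃ y : List Bool, y.length = k ∧ outC ∅ (x ++ y) [] = true) ↔
          ∃ a : ℕ → Bool, ∀ cl ∈ Φ, cl.1.eval x = true → ∃ l ∈ cl.2, a l.1 = l.2) := by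
  refine ⟨[(PS.cst true, [(k, true)]), (PS.cst true, [(k, false)])], by simp, ?_, ?_⟩
  · intro cl hcl
    simp only [List.mem_cons, List.not_mem_nil, or_false] at hcl
    rcases hcl with rfl | rfl <;> simp
  · intro x _
    constructor
    · rintro ⟨y, _, hy⟩
      rw [outC_eq] at hy
      simp at hy
    · rintro ⟨a, ha⟩
      have h1 := ha (PS.cst true, [(k, true)]) (by simp) rfl
      have h2 := ha (PS.cst true, [(k, false)]) (by simp) rfl
      simp at h1 h2
      rw [h1] at h2
      exact absurd h2 (by simp)

theorem tseitin (m k : ℕ) (C : List Gate) (hno : ∀ as, Gate.orc as ∉ C) :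
    ∃ Φ : List (PS × List (ℕ × Bool)), Φ.length ≤ 3 * C.length + 2 ∧
      (∀ cl ∈ Φ, cl.2 ≠ [] ∧ cl.2.length ≤ 3 ∧ ∀ l ∈ cl.2, l.1 < C.length + k + 1) ∧
      ∀ x : List Bool, x.length = m →
        ((∃ y : List Bool, y.length = k ∧ outC ∅ (x ++ y) C = true) ↔
          ∃ a : ℕ → Bool, ∀ cl ∈ Φ, cl.1.eval x = true → ∃ l ∈ cl.2, a l.1 = l.2) := by
  by_cases hC : C = []
  · subst hC
    exact tseitin_nil m k
  have hpos : 0 < C.length := List.length_pos_iff.mpr hC
  have hg : ∀ g : Fin C.length, ∃ Φ : List (PS × List (ℕ × Bool)), Φ.length ≤ 3 ∧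
      (∀ cl ∈ Φ, cl.2 ≠ [] ∧ cl.2.length ≤ 3 ∧ ∀ l ∈ cl.2, l.1 < C.length + k) ∧
      ∀ (x : List Bool), x.length = m → ∀ a : ℕ → Bool,
        ((∀ cl ∈ Φ, cl.1.eval x = true → ∃ l ∈ cl.2, a l.1 = l.2) ↔
          a g = (C[g]).eval ∅ (x ++ List.ofFn (fun t : Fin k => a (C.length + t.1)))
            (List.ofFn (fun i : Fin g => a i.1))) := by
    intro g
    exact gate_clauses m k C.length g.1 g.2 C[g]
      (fun as h => hno as (h ▸ List.getElem_mem g.2))
  choose Φ hlen hvar hsem using hg
  refine ⟨(List.ofFn Φ).flatten ++ [(PS.cst true, [(C.length - 1, true)])], ?_, ?_, ?_⟩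
  · rw [List.length_append, List.length_flatten, List.map_ofFn, List.sum_ofFn]
    have : ∑ i : Fin C.length, (List.length ∘ Φ) i ≤ ∑ i : Fin C.length, 3 :=
      Finset.sum_le_sum fun i _ => hlen i
    simp only [Finset.sum_const, Finset.card_univ, Fintype.card_fin, smul_eq_mul] at this
    simp only [List.length_cons, List.length_nil]
    omega
  · intro cl hcl
    rw [List.mem_append, List.mem_flatten] at hcl
    rcases hcl with ⟨l, hl, hcl⟩ | hcl
    · rw [List.mem_ofFn] at hl
      obtain ⟨g, rfl⟩ := hl
      obtain ⟨h1, h1', h2⟩ := hvar g cl hcl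
      exact ⟨h1, h1', fun l hl => lt_of_lt_of_le (h2 l hl) (by omega)⟩
    · rw [List.mem_singleton] at hcl
      subst hcl
      refine ⟨by simp, by simp, ?_⟩
      intro l hl
      simp only [List.mem_singleton] at hl
      subst hl
      simp only
      omega
  · intro x hx
    have hmem : ∀ a : ℕ → Bool,
        (∀ cl ∈ (List.ofFn Φ).flatten ++ [(PS.cst true, [(C.length - 1, true)])],
          cl.1.eval x = true → ∃ l ∈ cl.2, a l.1 = l.2) ↔
        ((∀ g : Fin C.length,
          a g = (C[g]).eval ∅ (x ++ List.ofFn (fun t : Fin k => a (C.length + t.1)))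
            (List.ofFn (fun i : Fin g => a i.1))) ∧ a (C.length - 1) = true) := by
      intro a
      constructor
      · intro h
        refine ⟨fun g => (hsem g x hx a).mp fun cl hcl => h cl ?_, ?_⟩
        · rw [List.mem_append, List.mem_flatten]
          exact Or.inl ⟨Φ g, (List.mem_ofFn).mpr ⟨g, rfl⟩, hcl⟩
        · have := h (PS.cst true, [(C.length - 1, true)]) (by simp) rfl
          simpa using this
      · rintro ⟨h1, h2⟩ cl hcl
        rw [List.mem_append, List.mem_flatten] at hcl
        rcases hcl with ⟨l, hl, hcl⟩ | hcl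
        · rw [List.mem_ofFn] at hl
          obtain ⟨g, rfl⟩ := hl
          exact (hsem g x hx a).mpr (h1 g) cl hcl
        · rw [List.mem_singleton] at hcl
          subst hcl
          intro _
          exact ⟨(C.length - 1, true), by simp, h2⟩
    constructor
    · rintro ⟨y, hy, hout⟩
      have hkey : ∃ a : ℕ → Bool, (∀ n, n < C.length → a n = (runC ∅ (x ++ y) C).getD n false) ∧
          ∀ t, a (C.length + t) = y.getD t false :=
        ⟨fun n => if n < C.length then (runC ∅ (x ++ y) C).getD n false
          else y.getD (n - C.length) false, fun n hn => by simp only [if_pos hn],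
          fun t => by simp⟩
      obtain ⟨a, ha1, ha2⟩ := hkey
      refine ⟨a, (hmem a).mpr ⟨?_, ?_⟩⟩
      · intro g
        have e1 : (List.ofFn (fun t : Fin k => a (C.length + t.1))) = y := by
          apply List.ext_getElem
          · simp [hy]
          · intro i h1 h2
            simp [ha2, h2]
        have e2 : (List.ofFn (fun i : Fin g.1 => a i.1)) = (runC ∅ (x ++ y) C).take g.1 := by
          apply List.ext_getElem
          · have := g.2
            rw [List.length_take, runC_length, List.length_ofFn]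
            omega
          · intro i h1 h2
            have hi : i < g.1 := by simpa using h1
            have hi' : i < C.length := lt_trans hi g.2
            have hi'' : i < (runC ∅ (x ++ y) C).length := by rw [runC_length]; exact hi'
            simp [ha1 i hi', hi'']
        rw [e1, e2, ha1 g.1 g.2]
        exact runC_local ∅ (x ++ y) C g.1 g.2
      · rw [outC_eq, if_neg hC] at hout
        rw [ha1 _ (Nat.sub_lt hpos one_pos)]
        exact hout
    · rintro ⟨a, ha⟩
      obtain ⟨h1, h2⟩ := (hmem a).mp ha
      refine ⟨List.ofFn (fun t : Fin k => a (C.length + t.1)), by simp, ?_⟩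
      rw [outC_eq, if_neg hC,
        ← runC_unique ∅ _ C a (fun g hg => h1 ⟨g, hg⟩) (C.length - 1) (by omega)]
      exact h2

end P65S
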