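import Pool.Agent.Lib.P65.CircDefs

/-!
From a gated 3-CNF to a gated hitting set problem with three classes of rows. Rows: (class `a`,
number `2 i + b`) is the literal `(i, b)` in the class `a < 3`. Columns: for `i < N` the six
pairs `{(a, 2 i + 1), (a', 2 i)}`, `a ≠ a'`, then one column for every clause.
-/

namespace P65S

open P65

/-- The two classes of the pair number `c`. -/
def pA (c : ℕ) : ℕ := c / 2
/-- The two classes of the pair number `c`. -/
def pB (c : ℕ) : ℕ := if c = 0 then 1 else if c = 1 then 2 else if c = 2 then 0 else
  if c = 3 then 2 else if c = 4 then 0 else 1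

/-- The columns. -/
def colq (N : ℕ) (Φ : List (PS × List (ℕ × Bool))) (j : ℕ) (a : Fin 4) : Option ℕ :=
  if j < 6 * N then
    (if a.1 = pA (j % 6) then some (2 * (j / 6) + 1)
      else if a.1 = pB (j % 6) then some (2 * (j / 6)) else none)
  else ((Φ[j - 6 * N]?).bind (fun cl => cl.2[a.1]?)).map (fun l => 2 * l.1 + l.2.toNat)

/-- The gates of the columns. -/
def colG (N : ℕ) (Φ : List (PS × List (ℕ × Bool))) (j : ℕ) : PS :=
  if j < 6 * N then PS.cst true else (Φ.getD (j - 6 * N) (PS.cst true, [])).1

/-- A number as an element of `Fin 4`. -/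
def f4 (c : ℕ) : Fin 4 := ⟨c % 4, Nat.mod_lt _ (by norm_num)⟩

theorem f4_val (p : Fin 4 × ℕ) : (f4 p.1.1, p.2) = p :=
  Prod.ext (Fin.ext (Nat.mod_eq_of_lt p.1.2)) rfl

theorem six (s0 s1 s2 t0 t1 t2 : Bool) : (s0 || t1) = true → (s0 || t2) = true →
    (s1 || t0) = true → (s1 || t2) = true → (s2 || t0) = true → (s2 || t1) = true →
    3 ≤ s0.toNat + s1.toNat + s2.toNat + t0.toNat + t1.toNat + t2.toNat ∧
    (s0.toNat + s1.toNat + s2.toNat + t0.toNat + t1.toNat + t2.toNat = 3 →
      (s0 = true ∧ s1 = true ∧ s2 = true ∧ t0 = false ∧ t1 = false ∧ t2 = false) ∨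
      (s0 = false ∧ s1 = false ∧ s2 = false ∧ t0 = true ∧ t1 = true ∧ t2 = true)) := by
  cases s0 <;> cases s1 <;> cases s2 <;> cases t0 <;> cases t1 <;> cases t2 <;> simp

theorem colq_pair (N : ℕ) (Φ : List (PS × List (ℕ × Bool))) (i c : ℕ) (hi : i < N) (hc : c < 6)
    (a : Fin 4) : colq N Φ (6 * i + c) a =
      if a.1 = pA c then some (2 * i + 1) else if a.1 = pB c then some (2 * i) else none := by
  have h1 : 6 * i + c < 6 * N := by omega
  have h2 : (6 * i + c) % 6 = c := by omega
  have h3 : (6 * i + c) / 6 = i := by omega
  rw [colq, if_pos h1, h2, h3]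

theorem colq_clause (N : ℕ) (Φ : List (PS × List (ℕ × Bool))) (t : ℕ) (ht : t < Φ.length)
    (a : Fin 4) : colq N Φ (6 * N + t) a =
      ((Φ[t]).2[a.1]?).map (fun l => 2 * l.1 + l.2.toNat) := by
  have h1 : ¬ 6 * N + t < 6 * N := by omega
  have h2 : 6 * N + t - 6 * N = t := by omega
  rw [colq, if_neg h1, h2, List.getElem?_eq_getElem ht]
  rfl

theorem cnf3 (N : ℕ) (Φ : List (PS × List (ℕ × Bool)))
    (hΦ : ∀ cl ∈ Φ, cl.2 ≠ [] ∧ cl.2.length ≤ 3 ∧ ∀ l ∈ cl.2, l.1 < N) :
    (∀ j < 6 * N + Φ.length, ∀ a v, colq N Φ j a = some v → v < 2 * N) ∧
    (∀ j < 6 * N + Φ.length, ∃ a v, a ≠ 3 ∧ colq N Φ j a = some v) ∧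
    ∀ x : List Bool,
      ((∃ a : ℕ → Bool, ∀ cl ∈ Φ, cl.1.eval x = true → ∃ l ∈ cl.2, a l.1 = l.2) ↔
        ∃ U : Finset (Fin 4 × ℕ), U.card ≤ 3 * N ∧
          ∀ j, (j < 6 * N + Φ.length ∧ (colG N Φ j).eval x = true) →
            ∃ p ∈ U, p.1 ≠ 3 ∧ p.2 < 2 * N ∧ colq N Φ j p.1 = some p.2) := by
  classical
  have tn : ∀ b : Bool, b.toNat < 2 := by intro b; cases b <;> simp
  refine ⟨?_, ?_, ?_⟩
  · intro j hj a v hv
    by_cases h : j < 6 * N
    · have h1 : j / 6 < N := by omega
      rw [colq, if_pos h] at hv
      split_ifs at hv with h2 h3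
      · have := Option.some.inj hv
        omega
      · have := Option.some.inj hv
        omega
    · obtain ⟨t, rfl⟩ : ∃ t, j = 6 * N + t := ⟨j - 6 * N, by omega⟩
      have ht : t < Φ.length := by omega
      rw [colq_clause N Φ t ht, Option.map_eq_some_iff] at hv
      obtain ⟨l, hl, hv⟩ := hv
      have h1 := (hΦ _ (List.getElem_mem ht)).2.2 l (List.mem_of_getElem? hl)
      have := tn l.2
      omega
  · intro j hj
    by_cases h : j < 6 * N
    · have h2 : pA (j % 6) < 3 := by
        unfold pA
        omega
      refine ⟨⟨pA (j % 6), by omega⟩, 2 * (j / 6) + 1, ?_, ?_⟩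
      · intro he
        have := congrArg Fin.val he
        change pA (j % 6) = 3 at this
        omega
      · rw [colq, if_pos h, if_pos rfl]
    · obtain ⟨t, rfl⟩ : ∃ t, j = 6 * N + t := ⟨j - 6 * N, by omega⟩
      have ht : t < Φ.length := by omega
      have h1 : (Φ[t]).2 ≠ [] := (hΦ _ (List.getElem_mem ht)).1
      have h2 : 0 < (Φ[t]).2.length := List.length_pos_iff.2 h1
      refine ⟨0, 2 * ((Φ[t]).2[0]).1 + ((Φ[t]).2[0]).2.toNat, by decide, ?_⟩
      rw [colq_clause N Φ t ht]
      change Option.map _ ((Φ[t]).2[0]?) = _
      rw [List.getElem?_eq_getElem h2]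
      rfl
  · intro x
    constructor
    · rintro ⟨α, hα⟩
      refine ⟨(Finset.univ ×ˢ Finset.range N : Finset (Fin 3 × ℕ)).image
        (fun p => (p.1.castSucc, 2 * p.2 + (α p.2).toNat)), ?_, ?_⟩
      · refine Finset.card_image_le.trans ?_
        rw [Finset.card_product, Finset.card_range, Finset.card_univ, Fintype.card_fin]
      · have hU : ∀ (c : ℕ) (hc : c < 3) (i : ℕ), i < N →
            ((⟨c, by omega⟩ : Fin 4), 2 * i + (α i).toNat) ∈
              (Finset.univ ×ˢ Finset.range N : Finset (Fin 3 × ℕ)).image
                (fun p => (p.1.castSucc, 2 * p.2 + (α p.2).toNat)) := by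
          intro c hc i hi
          exact Finset.mem_image.2 ⟨(⟨c, hc⟩, i),
            Finset.mem_product.2 ⟨Finset.mem_univ _, Finset.mem_range.2 hi⟩, rfl⟩
        rintro j ⟨hj, hG⟩
        by_cases h : j < 6 * N
        · obtain ⟨i, c, hi, hc, rfl⟩ : ∃ i c, i < N ∧ c < 6 ∧ j = 6 * i + c :=
            ⟨j / 6, j % 6, by omega, by omega, by omega⟩
          have hA3 : pA c < 3 := by unfold pA; omega
          have hB3 : pB c < 3 := by unfold pB; split_ifs <;> omega
          have hAB : pB c ≠ pA c := by
            unfold pA pB
            interval_cases c <;> simp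
          cases hαi : α i
          · refine ⟨(⟨pB c, by omega⟩, 2 * i), ?_, ?_, ?_, ?_⟩
            · have := hU (pB c) hB3 i hi
              rw [hαi] at this
              exact this
            · intro he
              have := congrArg Fin.val he
              change pB c = 3 at this
              omega
            · change 2 * i < 2 * N
              omega
            · rw [colq_pair N Φ i c hi hc]
              change (if pB c = pA c then _ else if pB c = pB c then _ else _) = _
              rw [if_neg hAB, if_pos rfl]
          · refine ⟨(⟨pA c, by omega⟩, 2 * i + 1), ?_, ?_, ?_, ?_⟩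
            · have := hU (pA c) hA3 i hi
              rw [hαi] at this
              exact this
            · intro he
              have := congrArg Fin.val he
              change pA c = 3 at this
              omega
            · change 2 * i + 1 < 2 * N
              omega
            · rw [colq_pair N Φ i c hi hc]
              change (if pA c = pA c then _ else _) = _
              rw [if_pos rfl]
        · obtain ⟨t, rfl⟩ : ∃ t, j = 6 * N + t := ⟨j - 6 * N, by omega⟩
          have ht : t < Φ.length := by omega
          have hG' : (Φ[t]).1.eval x = true := by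
            have e : colG N Φ (6 * N + t) = (Φ[t]).1 := by
              have h2 : 6 * N + t - 6 * N = t := by omega
              rw [colG, if_neg h, h2, List.getD_eq_getElem?_getD, List.getElem?_eq_getElem ht]
              rfl
            rw [← e]
            exact hG
          obtain ⟨l, hl, hal⟩ := hα _ (List.getElem_mem ht) hG'
          obtain ⟨k, hk, hkl⟩ := List.mem_iff_getElem.1 hl
          have hk3 : k < 3 := lt_of_lt_of_le hk (hΦ _ (List.getElem_mem ht)).2.1
          have hlN := (hΦ _ (List.getElem_mem ht)).2.2 l hl
          refine ⟨(⟨k, by omega⟩, 2 * l.1 + l.2.toNat), ?_, ?_, ?_, ?_⟩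
          · have := hU k hk3 l.1 hlN
            rw [hal] at this
            exact this
          · intro he
            have := congrArg Fin.val he
            change k = 3 at this
            omega
          · have := tn l.2
            change 2 * l.1 + l.2.toNat < 2 * N
            omega
          · rw [colq_clause N Φ t ht]
            change Option.map _ ((Φ[t]).2[k]?) = _
            rw [List.getElem?_eq_getElem hk, hkl]
            rfl
    · rintro ⟨U, hU, hhit⟩
      -- membership as a Boolean
      let s : ℕ → ℕ → Bool → Bool := fun i c b =>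
        decide ((f4 c, 2 * i + b.toNat) ∈ U)
      have hpair : ∀ i < N, ∀ c < 6, (s i (pA c) true || s i (pB c) false) = true := by
        intro i hi c hc
        have hj : 6 * i + c < 6 * N + Φ.length := by omega
        have hG : (colG N Φ (6 * i + c)).eval x = true := by
          rw [colG, if_pos (by omega)]
          rfl
        obtain ⟨p, hp, _, _, h3⟩ := hhit _ ⟨hj, hG⟩
        rw [colq_pair N Φ i c hi hc] at h3
        have hpe : p = (f4 p.1.1, p.2) := (f4_val p).symm
        split_ifs at h3 with h4 h5
        · have h6 := Option.some.inj h3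
          rw [Bool.or_eq_true]
          left
          simp only [s, decide_eq_true_eq, Bool.toNat_true]
          rw [← h4, h6]
          rw [← hpe]
          exact hp
        · have h6 := Option.some.inj h3
          rw [Bool.or_eq_true]
          right
          simp only [s, decide_eq_true_eq, Bool.toNat_false, add_zero]
          rw [← h5, h6]
          rw [← hpe]
          exact hp
      let cnt : ℕ → ℕ := fun i => (s i 0 true).toNat + (s i 1 true).toNat + (s i 2 true).toNat +
        (s i 0 false).toNat + (s i 1 false).toNat + (s i 2 false).toNat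
      have hsix : ∀ i < N, 3 ≤ cnt i ∧ (cnt i = 3 →
          (s i 0 true = true ∧ s i 1 true = true ∧ s i 2 true = true ∧ s i 0 false = false ∧
            s i 1 false = false ∧ s i 2 false = false) ∨
          (s i 0 true = false ∧ s i 1 true = false ∧ s i 2 true = false ∧ s i 0 false = true ∧
            s i 1 false = true ∧ s i 2 false = true)) := by
        intro i hi
        have e := hpair i hi
        exact six _ _ _ _ _ _ (e 0 (by omega)) (e 1 (by omega)) (e 2 (by omega)) (e 3 (by omega))
          (e 4 (by omega)) (e 5 (by omega))
      -- counting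
      have hcnt : ∀ i, cnt i = (U.filter fun p => p.1 ≠ 3 ∧ p.2 / 2 = i).card := by
        intro i
        have e1 : (U.filter fun p => p.1 ≠ 3 ∧ p.2 / 2 = i) =
            ((Finset.univ : Finset (Fin 3 × Bool)).filter
              (fun q => s i q.1.1 q.2 = true)).image
              (fun q => (f4 q.1.1, 2 * i + q.2.toNat)) := by
          ext p
          rw [Finset.mem_filter, Finset.mem_image]
          constructor
          · rintro ⟨hp, h3, h2⟩
            have h4 : p.1.1 < 3 := by
              have := p.1.2
              by_contra hcon
              exact h3 (Fin.ext (by change p.1.1 = 3; omega))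
            have h5 : 2 * i + (decide (p.2 % 2 = 1)).toNat = p.2 := by
              by_cases h : p.2 % 2 = 1
              · rw [decide_eq_true h, Bool.toNat_true]
                omega
              · rw [decide_eq_false h, Bool.toNat_false]
                omega
            refine ⟨(⟨p.1.1, h4⟩, decide (p.2 % 2 = 1)), ?_, ?_⟩
            · rw [Finset.mem_filter]
              refine ⟨Finset.mem_univ _, ?_⟩
              simp only [s, decide_eq_true_eq]
              rw [h5]
              rw [f4_val p]
              exact hp
            · simp only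
              rw [h5]
              exact f4_val p
          · rintro ⟨q, hq, rfl⟩
            rw [Finset.mem_filter] at hq
            have h6 := hq.2
            simp only [s, decide_eq_true_eq] at h6
            have h7 := tn q.2
            refine ⟨h6, ?_, ?_⟩
            · intro he
              have h8 := congrArg Fin.val he
              have h9 := q.1.2
              change q.1.1 % 4 = 3 at h8
              omega
            · simp only
              omega
        rw [e1, Finset.card_image_of_injective]
        · rw [Finset.card_filter, Fintype.sum_prod_type]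
          simp only [Fin.sum_univ_three, Fintype.sum_bool]
          simp only [cnt]
          have e2 : ∀ b : Bool, (if b = true then 1 else 0) = b.toNat := by
            intro b
            cases b <;> rfl
          simp only [e2]
          change _ = (s i 0 true).toNat + (s i 0 false).toNat +
            ((s i 1 true).toNat + (s i 1 false).toNat) +
            ((s i 2 true).toNat + (s i 2 false).toNat)
          omega
        · intro q q' he
          simp only [Prod.mk.injEq] at he
          obtain ⟨h1, h2⟩ := he
          have h3 := congrArg Fin.val h1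
          change q.1.1 % 4 = q'.1.1 % 4 at h3
          have h4 := q.1.2
          have h5 := q'.1.2
          have h6 : q.1 = q'.1 := Fin.ext (by omega)
          have h7 : q.2 = q'.2 := by
            cases hq : q.2 <;> cases hq' : q'.2 <;> simp_all
          exact Prod.ext h6 h7
      have hsum : ∑ i ∈ Finset.range N, cnt i ≤ 3 * N := by
        have e1 : ∑ i ∈ Finset.range N, cnt i =
            ((Finset.range N).biUnion (fun i => U.filter fun p => p.1 ≠ 3 ∧ p.2 / 2 = i)).card := by
          rw [Finset.card_biUnion]
          · exact Finset.sum_congr rfl (fun i _ => hcnt i)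
          · intro i _ i' _ hne
            rw [Function.onFun, Finset.disjoint_left]
            intro p hp hp'
            rw [Finset.mem_filter] at hp hp'
            exact hne (hp.2.2.symm.trans hp'.2.2)
        rw [e1]
        refine (Finset.card_le_card ?_).trans hU
        intro p hp
        rw [Finset.mem_biUnion] at hp
        obtain ⟨i, _, hp⟩ := hp
        exact (Finset.mem_filter.1 hp).1
      have hcnt3 : ∀ i < N, cnt i = 3 := by
        have e1 : ∑ i ∈ Finset.range N, 3 = 3 * N := by simp [mul_comm]
        have e2 : ∀ i ∈ Finset.range N, 3 ≤ cnt i := fun i hi =>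
          (hsix i (Finset.mem_range.1 hi)).1
        have e3 : ∑ i ∈ Finset.range N, 3 = ∑ i ∈ Finset.range N, cnt i :=
          le_antisymm (Finset.sum_le_sum e2) (by rw [e1]; exact hsum)
        intro i hi
        exact ((Finset.sum_eq_sum_iff_of_le e2).1 e3 i (Finset.mem_range.2 hi)).symm
      refine ⟨fun i => s i 0 true, ?_⟩
      intro cl hcl hev
      obtain ⟨t, ht, rfl⟩ := List.mem_iff_getElem.1 hcl
      have hG : (colG N Φ (6 * N + t)).eval x = true := by
        have h2 : 6 * N + t - 6 * N = t := by omega
        rw [colG, if_neg (by omega), h2, List.getD_eq_getElem?_getD, List.getElem?_eq_getElem ht]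
        exact hev
      obtain ⟨p, hp, hp3, _, hpq⟩ := hhit (6 * N + t) ⟨by omega, hG⟩
      rw [colq_clause N Φ t ht, Option.map_eq_some_iff] at hpq
      obtain ⟨l, hl, hlp⟩ := hpq
      have hmem := List.mem_of_getElem? hl
      refine ⟨l, hmem, ?_⟩
      have hlN := (hΦ _ (List.getElem_mem ht)).2.2 l hmem
      have hc : p.1.1 < 3 := by
        have := p.1.2
        by_contra hcon
        exact hp3 (Fin.ext (by change p.1.1 = 3; omega))
      have hs : s l.1 p.1.1 l.2 = true := by
        simp only [s, decide_eq_true_eq]
        rw [hlp]
        rw [f4_val p]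
        exact hp
      have hd := (hsix l.1 hlN).2 (hcnt3 l.1 hlN)
      simp only
      generalize p.1.1 = c at hc hs
      cases hb : l.2
      · rw [hb] at hs
        rcases hd with hd | hd
        · exfalso
          interval_cases c <;> simp_all
        · exact hd.1
      · rw [hb] at hs
        rcases hd with hd | hd
        · exact hd.1
        · exfalso
          interval_cases c <;> simp_all

end P65S
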