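import Pool.Agent.Lib.P65T.Defs

/-!
# MP_65a708_lc: minimum circuit size for depth-3 circuits with bottom fan-in `k`

Basic definitions.
-/

namespace P65S

open P65 P65T

/-- `g` is computed by a `k`-CNF: an AND of ORs of at most `k` literals. -/
def IsCNF (k : ℕ) {ι : Type} (g : (ι → Bool) → Bool) : Prop :=
  ∃ F : List (List (ι × Bool)), (∀ c ∈ F, c.length ≤ k) ∧
    ∀ x, (g x = true ↔ ∀ c ∈ F, ∃ l ∈ c, x l.1 = l.2)

/-- `g` is computed by a `k`-DNF: an OR of ANDs of at most `k` literals. -/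
def IsDNF (k : ℕ) {ι : Type} (g : (ι → Bool) → Bool) : Prop :=
  ∃ F : List (List (ι × Bool)), (∀ c ∈ F, c.length ≤ k) ∧
    ∀ x, (g x = true ↔ ∃ c ∈ F, ∀ l ∈ c, x l.1 = l.2)

/-- `g` is `k`-local: every rejected point is rejected because of at most `k` coordinates. -/
def IsLoc (k : ℕ) {ι : Type} (g : (ι → Bool) → Bool) : Prop :=
  ∀ x, g x = false → ∃ K : Finset ι, K.card ≤ k ∧
    ∀ y, (∀ i ∈ K, y i = x i) → g y = false

/-- The one-hot code of a word. -/
def oh {r : ℕ} {σ : Type} [DecidableEq σ] (w : Fin r → σ) : Fin r × σ → Bool :=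
  fun p => decide (w p.1 = p.2)

/-- The variables of the lifted function. -/
abbrev LV (ι : Type) (r κ : ℕ) := ι ⊕ Option (Fin r × (Bool × Fin κ))

/-- The hub point. -/
def hub (r κ : ℕ) : Fin r × (Bool × Fin κ) → Bool := fun p => decide (p.2.2.1 = 0)

/-- The part of a point outside `ι`, without the switch. -/
def yp {ι : Type} {r κ : ℕ} (z : LV ι r κ → Bool) : Fin r × (Bool × Fin κ) → Bool :=
  fun p => z (Sum.inr (some p))

/-- The part of a point in `ι`. -/
def xp {ι : Type} {r κ : ℕ} (z : LV ι r κ → Bool) : ι → Bool := fun i => z (Sum.inl i)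

open Classical in
/-- The lifted function. -/
noncomputable def lift {ι : Type} {r κ : ℕ} (C : Finset (Fin r → Bool)) (f : (ι → Bool) → Bool)
    (z : LV ι r κ → Bool) : Bool :=
  if z (Sum.inr none) = true then
    decide (∃ w : Fin r → Bool × Fin κ, (fun b => (w b).1) ∈ C ∧ yp z = oh w)
  else decide (yp z = hub r κ) && f (xp z)

end P65S
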