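import Pool.Agent.Lib.P65S.Defs

/-!
A `k`-local set of one-hot codes of words of length `r` has at most `k ^ r` elements.
-/

namespace P65S

theorem oh_aux {r k : ℕ} {σ : Type} [Fintype σ] [DecidableEq σ]
    (G : (Fin r × σ → Bool) → Bool) (hG : IsLoc k G)
    (hO : ∀ z, G z = true → ∃ w : Fin r → σ, z = oh w) :
    ∀ (q : ℕ) (R : Finset (Fin r)) (w0 : Fin r → σ), R.card = q →
      (Finset.univ.filter fun w : Fin r → σ =>
        G (oh w) = true ∧ ∀ b, b ∉ R → w b = w0 b).card ≤ k ^ q := by
  classical
  intro q
  induction q with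
  | zero =>
    intro R w0 hR
    rw [pow_zero, Finset.card_le_one]
    intro a ha b hb
    rw [Finset.mem_filter] at ha hb
    rw [Finset.card_eq_zero] at hR
    subst hR
    funext i
    rw [ha.2.2 i (by simp), hb.2.2 i (by simp)]
  | succ q ih =>
    intro R w0 hR
    obtain ⟨b0, hb0⟩ : R.Nonempty := by
      rw [← Finset.card_pos]
      omega
    set z : Fin r × σ → Bool := fun p => if p.1 ∈ R then false else decide (w0 p.1 = p.2) with hz
    have hGz : G z = false := by
      by_contra hcon
      obtain ⟨w, hw⟩ := hO z (by simpa using hcon)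
      have h1 : z (b0, w b0) = true := by
        rw [hw]
        simp [oh]
      simp [hz, hb0] at h1
    obtain ⟨K, hK, hK2⟩ := hG z hGz
    have hsub : (Finset.univ.filter fun w : Fin r → σ =>
        G (oh w) = true ∧ ∀ b, b ∉ R → w b = w0 b) ⊆
        (K.filter fun p => p.1 ∈ R).biUnion (fun p =>
          Finset.univ.filter fun w : Fin r → σ =>
            G (oh w) = true ∧ ∀ b, b ∉ R.erase p.1 → w b = Function.update w0 p.1 p.2 b) := by
      intro w hw
      rw [Finset.mem_filter] at hw
      obtain ⟨_, hw1, hw2⟩ := hw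
      have h1 : ∃ p ∈ K, oh w p ≠ z p := by
        by_contra hcon
        push Not at hcon
        have := hK2 (oh w) hcon
        rw [hw1] at this
        exact absurd this (by simp)
      obtain ⟨p, hp, h2⟩ := h1
      have hpR : p.1 ∈ R := by
        by_contra hpR
        apply h2
        simp only [hz, oh, if_neg hpR]
        rw [hw2 p.1 hpR]
      have h3 : w p.1 = p.2 := by
        simp only [hz, oh, if_pos hpR] at h2
        simpa using h2
      rw [Finset.mem_biUnion]
      refine ⟨p, Finset.mem_filter.2 ⟨hp, hpR⟩, Finset.mem_filter.2 ⟨Finset.mem_univ _, hw1, ?_⟩⟩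
      intro b hb
      by_cases hbp : b = p.1
      · subst hbp
        rw [Function.update_self, h3]
      · rw [Function.update_of_ne hbp]
        refine hw2 b (fun hbR => hb ?_)
        exact Finset.mem_erase.2 ⟨hbp, hbR⟩
    calc _ ≤ _ := Finset.card_le_card hsub
      _ ≤ (K.filter fun p => p.1 ∈ R).card * k ^ q := Finset.card_biUnion_le_card_mul _ _ _ (by
          intro p hp
          refine ih (R.erase p.1) _ ?_
          rw [Finset.card_erase_of_mem (Finset.mem_filter.1 hp).2, hR]
          omega)
      _ ≤ k * k ^ q := Nat.mul_le_mul_right _ ((Finset.card_filter_le _ _).trans hK)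
      _ = k ^ (q + 1) := by ring

theorem oh_bound {r k : ℕ} {σ : Type} [Fintype σ] [DecidableEq σ]
    (G : (Fin r × σ → Bool) → Bool) (hG : IsLoc k G)
    (hO : ∀ z, G z = true → ∃ w : Fin r → σ, z = oh w) :
    (Finset.univ.filter fun w : Fin r → σ => G (oh w) = true).card ≤ k ^ r := by
  classical
  rcases Nat.eq_zero_or_pos r with hr | hr
  · subst hr
    rw [pow_zero, Finset.card_le_one]
    intro a _ b _
    funext i
    exact i.elim0
  by_cases hne : Nonempty σ
  · obtain ⟨s0⟩ := hne
    have h := oh_aux G hG hO r Finset.univ (fun _ => s0) (by simp)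
    refine le_trans (le_of_eq ?_) h
    congr 1
    ext w
    simp
  · have : (Finset.univ.filter fun w : Fin r → σ => G (oh w) = true) = ∅ := by
      rw [Finset.eq_empty_iff_forall_notMem]
      intro w _
      exact hne ⟨w ⟨0, hr⟩⟩
    rw [this]
    simp

theorem card_pattern {r κ : ℕ} (C : Finset (Fin r → Bool)) :
    (Finset.univ.filter fun w : Fin r → Bool × Fin κ => (fun b => (w b).1) ∈ C).card =
      C.card * κ ^ r := by
  classical
  have h1 : C.card * κ ^ r = (C ×ˢ (Finset.univ : Finset (Fin r → Fin κ))).card := by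
    rw [Finset.card_product, Finset.card_univ, Fintype.card_pi]
    simp
  rw [h1]
  refine Finset.card_bij (fun w _ => (fun b => (w b).1, fun b => (w b).2)) ?_ ?_ ?_
  · intro w hw
    rw [Finset.mem_filter] at hw
    rw [Finset.mem_product]
    exact ⟨hw.2, Finset.mem_univ _⟩
  · intro w _ w' _ h
    funext b
    rw [Prod.mk.injEq] at h
    exact Prod.ext (congrFun h.1 b) (congrFun h.2 b)
  · intro p hp
    rw [Finset.mem_product] at hp
    exact ⟨fun b => (p.1 b, p.2 b), Finset.mem_filter.2 ⟨Finset.mem_univ _, hp.1⟩, rfl⟩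

end P65S
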