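import Pool.Agent.Lib.P65S.Loc
import Pool.Agent.Lib.P65S.OneHot

/-!
Lifting, lower bound.
-/

namespace P65S

open P65 P65T

variable {ι : Type} {r k : ℕ}

/-- The point with the parts `x`, `s`, `y`. -/
def pt {κ : ℕ} (x : ι → Bool) (s : Bool) (y : Fin r × (Bool × Fin κ) → Bool) :
    LV ι r κ → Bool :=
  Sum.elim x (fun o => match o with | none => s | some p => y p)

/-- The coordinate of `y` behind a coordinate of the point. -/
def pyc {κ : ℕ} (j : LV ι r κ) : Option (Fin r × (Bool × Fin κ)) := Sum.elim (fun _ => none) id j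

theorem yp_pt {κ : ℕ} (x : ι → Bool) (s : Bool) (y : Fin r × (Bool × Fin κ) → Bool) :
    yp (pt x s y) = y := rfl

theorem xp_pt {κ : ℕ} (x : ι → Bool) (s : Bool) (y : Fin r × (Bool × Fin κ) → Bool) :
    xp (pt x s y) = x := rfl

theorem lift_lb (C : Finset (Fin r → Bool)) (f : (ι → Bool) → Bool)
    (h : OrOf (IsLoc (k+1)) (lift (κ := k+1) C f) C.card) : OrOf (IsLoc k) f C.card := by
  classical
  obtain ⟨gs, h1, h2, h3⟩ := h
  -- fibres
  have hle : ∀ g ∈ gs, ∀ z, g z = true → lift (κ := k+1) C f z = true := fun g hg z hz =>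
    (h3 z).2 ⟨g, hg, hz⟩
  have hfib : ∀ g ∈ gs, ∀ x : ι → Bool,
      (Finset.univ.filter fun w : Fin r → Bool × Fin (k+1) =>
        g (pt x true (oh w)) = true).card ≤ (k+1) ^ r := by
    intro g hg x
    refine oh_bound (fun y => g (pt x true y)) ?_ ?_
    · refine loc_comp (h2 g hg) (fun y => pt x true y) pyc ?_
      intro y y' j hj
      rcases j with i | (_ | p)
      · rfl
      · rfl
      · exact hj p rfl
    · intro y hy
      have := hle g hg _ hy
      simp only [lift, pt, Sum.elim_inr, if_true, decide_eq_true_eq] at this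
      obtain ⟨w, _, hw⟩ := this
      exact ⟨w, hw⟩
  have hne : ∀ g ∈ gs, ∀ x : ι → Bool, ∃ w : Fin r → Bool × Fin (k+1),
      g (pt x true (oh w)) = true := by
    intro g hg x
    obtain ⟨i0, hi0, hgi⟩ := List.mem_iff_getElem.1 hg
    by_contra hcon
    push Not at hcon
    have hsub : (Finset.univ.filter fun w : Fin r → Bool × Fin (k+1) =>
        (fun b => (w b).1) ∈ C) ⊆
        ((Finset.univ : Finset (Fin gs.length)).erase ⟨i0, hi0⟩).biUnion (fun i =>
          Finset.univ.filter fun w : Fin r → Bool × Fin (k+1) =>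
            gs[i.1] (pt x true (oh w)) = true) := by
      intro w hw
      rw [Finset.mem_filter] at hw
      have hl : lift (κ := k+1) C f (pt x true (oh w)) = true := by
        simp only [lift, pt, Sum.elim_inr, if_true, decide_eq_true_eq]
        exact ⟨w, hw.2, rfl⟩
      obtain ⟨g', hg', hg'w⟩ := (h3 _).1 hl
      obtain ⟨i, hi, hgi'⟩ := List.mem_iff_getElem.1 hg'
      rw [Finset.mem_biUnion]
      refine ⟨⟨i, hi⟩, Finset.mem_erase.2 ⟨?_, Finset.mem_univ _⟩,
        Finset.mem_filter.2 ⟨Finset.mem_univ _, ?_⟩⟩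
      · intro he
        rw [Fin.mk.injEq] at he
        subst he
        rw [hgi] at hgi'
        subst hgi'
        exact hcon w hg'w
      · rw [hgi']
        exact hg'w
    have hc := Finset.card_le_card hsub
    rw [card_pattern] at hc
    have hc2 := hc.trans (Finset.card_biUnion_le_card_mul _ _ ((k+1) ^ r) (by
      intro i _
      exact hfib _ (List.getElem_mem _) x))
    rw [Finset.card_erase_of_mem (Finset.mem_univ _), Finset.card_univ, Fintype.card_fin] at hc2
    have hpos : 0 < (k+1) ^ r := by positivity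
    have hc3 := Nat.le_of_mul_le_mul_right hc2 hpos
    omega
  refine ⟨gs.map (fun g x => g (pt x false (hub r (k+1)))), ?_, ?_, ?_⟩
  · rw [List.length_map]
    exact h1
  · intro g' hg'
    obtain ⟨g, hg, rfl⟩ := List.mem_map.1 hg'
    intro x hx
    obtain ⟨K, hK, hK2⟩ := h2 g hg _ hx
    by_cases hr : ∃ o : Option (Fin r × (Bool × Fin (k+1))), Sum.inr o ∈ K
    · obtain ⟨o, ho⟩ := hr
      refine ⟨K.preimage Sum.inl (Sum.inl_injective.injOn), ?_, ?_⟩
      · have hsub : (K.preimage Sum.inl (Sum.inl_injective.injOn)).image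
            (Sum.inl : ι → LV ι r (k+1)) ⊆ K.erase (Sum.inr o) := by
          intro j hj
          obtain ⟨i, hi, rfl⟩ := Finset.mem_image.1 hj
          rw [Finset.mem_preimage] at hi
          exact Finset.mem_erase.2 ⟨by simp, hi⟩
        have h4 := Finset.card_le_card hsub
        rw [Finset.card_image_of_injective _ Sum.inl_injective, Finset.card_erase_of_mem ho] at h4
        omega
      · intro y hy
        refine hK2 _ (fun j hj => ?_)
        rcases j with i | o'
        · exact hy i (by simp [hj])
        · rfl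
    · exfalso
      push Not at hr
      obtain ⟨w, hw⟩ := hne g hg x
      have := hK2 (pt x true (oh w)) (fun j hj => by
        rcases j with i | o'
        · rfl
        · exact absurd hj (hr o'))
      rw [hw] at this
      exact absurd this (by simp)
  · intro x
    have h4 : f x = true ↔ lift (κ := k+1) C f (pt x false (hub r (k+1))) = true := by
      have e1 : yp (pt x false (hub r (k+1))) = hub r (k+1) := rfl
      have e2 : xp (pt x false (hub r (k+1))) = x := rfl
      have e3 : pt x false (hub r (k+1)) (Sum.inr none) = false := rfl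
      rw [lift, e1, e2, e3]
      simp
    rw [h4, h3]
    constructor
    · rintro ⟨g, hg, hx⟩
      exact ⟨_, List.mem_map.2 ⟨g, hg, rfl⟩, hx⟩
    · rintro ⟨g', hg', hx⟩
      obtain ⟨g, hg, rfl⟩ := List.mem_map.1 hg'
      exact ⟨g, hg, hx⟩

end P65S
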