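import Pool.Agent.Lib.P65S.Loc

/-!
Lifting, upper bound.
-/

namespace P65S

open P65 P65T

variable {ι : Type} {r k : ℕ}

open Classical in
/-- The set that belongs to the pattern `ε` and the set `B`. -/
noncomputable def SS (ε : Fin r → Bool) (B : (ι → Bool) → Bool) (z : LV ι r (k+1) → Bool) :
    Bool :=
  if z (Sum.inr none) = true then
    decide (∃ w : Fin r → Bool × Fin (k+1), (∀ b, (w b).1 = ε b) ∧ yp z = oh w)
  else decide (yp z = hub r (k+1)) && B (xp z)

theorem SS_loc (hk : 1 ≤ k) (ε : Fin r → Bool) (B : (ι → Bool) → Bool) (hB : IsLoc k B) :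
    IsLoc (k+1) (SS (k := k) ε B) := by
  classical
  intro z hz
  by_cases hon : z (Sum.inr none) = true
  · -- on
    by_cases hA : ∃ (b : Fin r) (j : Fin (k+1)), yp z (b, (!ε b, j)) = true
    · obtain ⟨b, j, hA⟩ := hA
      refine ⟨{Sum.inr none, Sum.inr (some (b, (!ε b, j)))}, ?_, ?_⟩
      · exact Finset.card_le_two.trans (by omega)
      · intro y hy
        have h1 : y (Sum.inr none) = true := by rw [hy _ (by simp), hon]
        have h2 : yp y (b, (!ε b, j)) = true := by
          rw [← hA]
          exact hy _ (by simp)
        simp only [SS, if_pos h1, decide_eq_false_iff_not]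
        rintro ⟨w, hw, he⟩
        rw [he] at h2
        simp only [oh, decide_eq_true_eq] at h2
        have h3 := hw b
        rw [h2] at h3
        simp at h3
    · by_cases hB2 : ∃ (b : Fin r) (j j' : Fin (k+1)), j ≠ j' ∧ yp z (b, (ε b, j)) = true ∧
        yp z (b, (ε b, j')) = true
      · obtain ⟨b, j, j', hne, h1, h2⟩ := hB2
        refine ⟨{Sum.inr (some (b, (ε b, j))), Sum.inr (some (b, (ε b, j')))}, ?_, ?_⟩
        · exact Finset.card_le_two.trans (by omega)
        · intro y hy
          have h3 : yp y (b, (ε b, j)) = true := by
            rw [← h1]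
            exact hy _ (by simp)
          have h4 : yp y (b, (ε b, j')) = true := by
            rw [← h2]
            exact hy _ (by simp)
          unfold SS
          split_ifs with hon'
          · rw [decide_eq_false_iff_not]
            rintro ⟨w, _, he⟩
            rw [he] at h3 h4
            simp only [oh, decide_eq_true_eq] at h3 h4
            rw [h3] at h4
            simp only [Prod.mk.injEq, true_and] at h4
            exact hne h4
          · have h5 : ¬ yp y = hub r (k+1) := by
              intro he
              rw [he] at h3 h4
              simp only [hub, decide_eq_true_eq] at h3 h4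
              exact hne (Fin.ext (h3.trans h4.symm))
            simp [h5]
      · by_cases hC : ∃ b : Fin r, ∀ j : Fin (k+1), yp z (b, (ε b, j)) = false
        · obtain ⟨b, hC⟩ := hC
          refine ⟨Finset.univ.image fun j : Fin (k+1) => Sum.inr (some (b, (ε b, j))), ?_, ?_⟩
          · refine Finset.card_image_le.trans ?_
            simp
          · intro y hy
            have h3 : ∀ j : Fin (k+1), yp y (b, (ε b, j)) = false := by
              intro j
              rw [← hC j]
              exact hy _ (Finset.mem_image.2 ⟨j, Finset.mem_univ _, rfl⟩)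
            unfold SS
            split_ifs with hon'
            · rw [decide_eq_false_iff_not]
              rintro ⟨w, hw, he⟩
              have h4 := h3 (w b).2
              rw [he] at h4
              simp only [oh, decide_eq_false_iff_not] at h4
              apply h4
              rw [← hw b]
            · have h5 : ¬ yp y = hub r (k+1) := by
                intro he
                have h4 := h3 0
                rw [he] at h4
                simp [hub] at h4
              simp [h5]
        · exfalso
          push Not at hA hB2 hC
          have hC' : ∀ b : Fin r, ∃ j : Fin (k+1), yp z (b, (ε b, j)) = true := by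
            intro b
            obtain ⟨j, hj⟩ := hC b
            exact ⟨j, by simpa using hj⟩
          choose J hJ using hC'
          simp only [SS, if_pos hon, decide_eq_false_iff_not] at hz
          apply hz
          refine ⟨fun b => (ε b, J b), fun b => rfl, ?_⟩
          funext p
          obtain ⟨b, s, j⟩ := p
          simp only [oh]
          by_cases hs : s = ε b
          · subst hs
            by_cases hj : J b = j
            · subst hj
              rw [hJ b]
              simp
            · have h6 : yp z (b, (ε b, j)) = false := by
                by_contra hcon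
                exact hB2 b (J b) j hj (hJ b) (by simpa using hcon)
              rw [h6]
              simp [hj]
          · have hs' : s = !ε b := by
              cases s <;> cases h : ε b <;> simp_all
            subst hs'
            have h6 := hA b j
            have h7 : yp z (b, (!ε b, j)) = false := by simpa using h6
            rw [h7]
            simp
  · -- off
    have hoff : z (Sum.inr none) = false := by simpa using hon
    by_cases hh : yp z = hub r (k+1)
    · have hBz : B (xp z) = false := by
        simpa [SS, hoff, hh] using hz
      obtain ⟨K, hK, hK2⟩ := hB _ hBz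
      refine ⟨insert (Sum.inr none) (K.image Sum.inl), ?_, ?_⟩
      · refine (Finset.card_insert_le _ _).trans ?_
        have := Finset.card_image_le (s := K) (f := (Sum.inl : ι → LV ι r (k+1)))
        omega
      · intro y hy
        have h1 : y (Sum.inr none) = false := by rw [hy _ (by simp), hoff]
        have h2 : B (xp y) = false := by
          refine hK2 _ (fun i hi => ?_)
          exact hy _ (Finset.mem_insert_of_mem (Finset.mem_image.2 ⟨i, hi, rfl⟩))
        simp [SS, h1, h2]
    · have h1 : ∃ p, yp z p ≠ hub r (k+1) p := by
        by_contra hcon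
        push Not at hcon
        exact hh (funext hcon)
      obtain ⟨p, hp⟩ := h1
      refine ⟨{Sum.inr none, Sum.inr (some p)}, Finset.card_le_two.trans (by omega), ?_⟩
      intro y hy
      have h1 : y (Sum.inr none) = false := by rw [hy _ (by simp), hoff]
      have h2 : ¬ yp y = hub r (k+1) := by
        intro he
        apply hp
        rw [← he]
        exact (hy _ (by simp)).symm
      simp [SS, h1, h2]

theorem lift_ub (hk : 1 ≤ k) (C : Finset (Fin r → Bool)) (f : (ι → Bool) → Bool)
    (h : OrOf (IsLoc k) f C.card) : OrOf (IsLoc (k+1)) (lift (κ := k+1) C f) C.card := by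
  classical
  obtain ⟨bs, h1, h2, h3⟩ := h
  let ff0 : (ι → Bool) → Bool := fun _ => false
  have hff0 : IsLoc k ff0 := fun x _ => ⟨∅, by simp, fun _ _ => rfl⟩
  let idx : (Fin r → Bool) → ℕ := fun ε => if h : ε ∈ C then (C.equivFin ⟨ε, h⟩).1 else 0
  let BB : (Fin r → Bool) → (ι → Bool) → Bool := fun ε => bs.getD (idx ε) ff0
  have hBB : ∀ ε, IsLoc k (BB ε) := by
    intro ε
    simp only [BB, List.getD_eq_getElem?_getD]
    by_cases hi : idx ε < bs.length
    · rw [List.getElem?_eq_getElem hi]
      exact h2 _ (List.getElem_mem _)
    · rw [List.getElem?_eq_none (by omega)]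
      exact hff0
  have hcov : ∀ x, f x = true ↔ ∃ ε ∈ C, BB ε x = true := by
    intro x
    rw [h3 x]
    constructor
    · rintro ⟨g, hg, hgx⟩
      obtain ⟨i, hi, hgi⟩ := List.mem_iff_getElem.1 hg
      have hiC : i < C.card := by omega
      refine ⟨(C.equivFin.symm ⟨i, hiC⟩).1, (C.equivFin.symm ⟨i, hiC⟩).2, ?_⟩
      have h4 : idx (C.equivFin.symm ⟨i, hiC⟩).1 = i := by
        simp only [idx]
        rw [dif_pos (C.equivFin.symm ⟨i, hiC⟩).2]
        simp
      simp only [BB, h4, List.getD_eq_getElem?_getD, List.getElem?_eq_getElem hi, hgi,
        Option.getD_some]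
      exact hgx
    · rintro ⟨ε, _, hx⟩
      simp only [BB, List.getD_eq_getElem?_getD] at hx
      by_cases hi : idx ε < bs.length
      · rw [List.getElem?_eq_getElem hi] at hx
        exact ⟨_, List.getElem_mem _, hx⟩
      · rw [List.getElem?_eq_none (by omega)] at hx
        simp [ff0] at hx
  refine ⟨C.toList.map (fun ε => SS ε (BB ε)), ?_, ?_, ?_⟩
  · rw [List.length_map, Finset.length_toList]
  · intro g hg
    obtain ⟨ε, _, rfl⟩ := List.mem_map.1 hg
    exact SS_loc hk ε _ (hBB ε)
  · intro z
    have e : (∃ g ∈ C.toList.map (fun ε => SS (k := k) ε (BB ε)), g z = true) ↔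
        ∃ ε ∈ C, SS (k := k) ε (BB ε) z = true := by
      constructor
      · rintro ⟨g, hg, hz⟩
        obtain ⟨ε, hε, rfl⟩ := List.mem_map.1 hg
        exact ⟨ε, Finset.mem_toList.1 hε, hz⟩
      · rintro ⟨ε, hε, hz⟩
        exact ⟨_, List.mem_map.2 ⟨ε, Finset.mem_toList.2 hε, rfl⟩, hz⟩
    rw [e]
    by_cases hon : z (Sum.inr none) = true
    · simp only [lift, SS, if_pos hon, decide_eq_true_eq]
      constructor
      · rintro ⟨w, hw, he⟩
        exact ⟨_, hw, w, fun b => rfl, he⟩
      · rintro ⟨ε, hε, w, hw, he⟩
        refine ⟨w, ?_, he⟩
        have : (fun b => (w b).1) = ε := funext hw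
        rw [this]
        exact hε
    · simp only [lift, SS, if_neg hon, Bool.and_eq_true, decide_eq_true_eq]
      rw [hcov]
      constructor
      · rintro ⟨h5, ε, hε, h6⟩
        exact ⟨ε, hε, h5, h6⟩
      · rintro ⟨ε, hε, h5, h6⟩
        exact ⟨h5, ε, hε, h6⟩

end P65S
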