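import Pool.Agent.Lib.P65S.Rows
import Pool.Agent.Lib.P65S.LiftUB
import Pool.Agent.Lib.P65S.LiftLB
import Pool.Agent.Lib.P65.CircDefs

/-!
The family of the functions on all levels.
-/

namespace P65S

open P65 P65T

theorem nW_le (L M : ℕ) : nW L M ≤ 2 ^ (8 * (L + 1)) := by
  classical
  have h1 : Nat.card {w : BB L → Bool // WW L M w} ≤ Nat.card (BB L → Bool) :=
    Nat.card_le_card_of_injective Subtype.val Subtype.val_injective
  refine h1.trans (le_of_eq ?_)
  rw [Nat.card_eq_fintype_card, Fintype.card_pi]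
  simp only [Fintype.card_bool, Finset.prod_const, Finset.card_univ, BB, Fintype.card_prod,
    Fintype.card_fin, Fintype.card_option]
  congr 1
  ring

/-- The bits of the base function are constants or gates or negated gates. -/
theorem base_proj (L M mm : ℕ) (hmm : mm ≤ 2 ^ L) (q : ℕ → Fin 4 → Option ℕ) (G G' : ℕ → PS)
    (hG : ∀ j x, (G' j).eval x = !((G j).eval x)) (z : BB L ⊕ Bool → Bool) :
    ∃ p : PS, ∀ x : List Bool,
      p.eval x = base L M q (fun j => j < mm ∧ (G j).eval x = true) z := by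
  classical
  have hact : (∃ j < mm, wp z = pc L q j ∧ ∀ x : List Bool,
      ((∃ j, (j < mm ∧ (G j).eval x = true) ∧ wp z = pc L q j) ↔ (G j).eval x = true)) ∨
      (∀ x : List Bool, ¬ ∃ j, (j < mm ∧ (G j).eval x = true) ∧ wp z = pc L q j) := by
    by_cases h : ∃ j < mm, wp z = pc L q j
    · obtain ⟨j, hj, hz⟩ := h
      refine Or.inl ⟨j, hj, hz, fun x => ⟨?_, fun h => ⟨j, ⟨hj, h⟩, hz⟩⟩⟩
      rintro ⟨j', ⟨hj', hx⟩, hz'⟩
      have : j = j' := pc_inj q (lt_of_lt_of_le hj hmm) (lt_of_lt_of_le hj' hmm)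
        (hz.symm.trans hz')
      rw [this]
      exact hx
    · refine Or.inr (fun x => ?_)
      rintro ⟨j, ⟨hj, _⟩, hz⟩
      exact h ⟨j, hj, hz⟩
  have key : ∀ x : List Bool, (base L M q (fun j => j < mm ∧ (G j).eval x = true) z = true ↔
      (z (Sum.inr false) = true ∧ z (Sum.inr true) = true ∧ WW L M (wp z)) ∨
      (z (Sum.inr false) = true ∧ z (Sum.inr true) = false ∧ WW L M (wp z) ∧
        ¬ (∃ j, (j < mm ∧ (G j).eval x = true) ∧ wp z = pc L q j) ∧ par (wp z) = 0) ∨
      (z (Sum.inr false) = false ∧ z (Sum.inr true) = true ∧ WW L M (wp z) ∧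
        ¬ (∃ j, (j < mm ∧ (G j).eval x = true) ∧ wp z = pc L q j) ∧ par (wp z) = 1) ∨
      (z (Sum.inr false) = false ∧ z (Sum.inr true) = false ∧
        (∃ j, (j < mm ∧ (G j).eval x = true) ∧ wp z = pc L q j))) := by
    intro x
    have h := gim_gp (WW L M) (fun w => ∃ j, (j < mm ∧ (G j).eval x = true) ∧ w = pc L q j)
      (wp z) (z (Sum.inr false)) (z (Sum.inr true))
    rw [← gp_eta z] at h
    exact h
  have cst : ∀ (b : Bool) (x : List Bool), (PS.cst b).eval x = b := fun _ _ => rfl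
  cases h1 : z (Sum.inr false) <;> cases h2 : z (Sum.inr true)
  · rcases hact with ⟨j, _, _, hj⟩ | hj
    · refine ⟨G j, fun x => Bool.eq_iff_iff.2 ?_⟩
      rw [key x, h1, h2, hj x]
      simp
    · refine ⟨PS.cst false, fun x => Bool.eq_iff_iff.2 ?_⟩
      rw [key x, h1, h2, cst]
      have := hj x
      simp only [Bool.false_eq_true, false_and, false_or, true_and, Bool.true_eq_false,
          or_false, false_iff]
      exact this
  · rcases hact with ⟨j, _, _, hj⟩ | hj
    · by_cases h3 : WW L M (wp z) ∧ par (wp z) = 1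
      · refine ⟨G' j, fun x => Bool.eq_iff_iff.2 ?_⟩
        rw [hG j x, key x, h1, h2, hj x]
        simp [h3.1, h3.2]
      · refine ⟨PS.cst false, fun x => Bool.eq_iff_iff.2 ?_⟩
        rw [key x, h1, h2, cst]
        simp only [Bool.false_eq_true, false_and, false_or, true_and, Bool.true_eq_false,
          or_false, false_iff]
        rintro ⟨h4, _, h5⟩
        exact h3 ⟨h4, h5⟩
    · refine ⟨PS.cst (decide (WW L M (wp z) ∧ par (wp z) = 1)), fun x => Bool.eq_iff_iff.2 ?_⟩
      rw [key x, h1, h2, cst, decide_eq_true_eq]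
      have := hj x
      simp only [Bool.false_eq_true, false_and, false_or, true_and, Bool.true_eq_false,
          or_false]
      tauto
  · rcases hact with ⟨j, _, _, hj⟩ | hj
    · by_cases h3 : WW L M (wp z) ∧ par (wp z) = 0
      · refine ⟨G' j, fun x => Bool.eq_iff_iff.2 ?_⟩
        rw [hG j x, key x, h1, h2, hj x]
        simp [h3.1, h3.2]
      · refine ⟨PS.cst false, fun x => Bool.eq_iff_iff.2 ?_⟩
        rw [key x, h1, h2, cst]
        simp only [Bool.false_eq_true, false_and, false_or, true_and, Bool.true_eq_false,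
          or_false, false_iff, and_false]
        rintro ⟨h4, _, h5⟩
        exact h3 ⟨h4, h5⟩
    · refine ⟨PS.cst (decide (WW L M (wp z) ∧ par (wp z) = 0)), fun x => Bool.eq_iff_iff.2 ?_⟩
      rw [key x, h1, h2, cst, decide_eq_true_eq]
      have := hj x
      simp only [Bool.false_eq_true, false_and, false_or, true_and, Bool.true_eq_false,
          or_false, and_false]
      tauto
  · refine ⟨PS.cst (decide (WW L M (wp z))), fun x => Bool.eq_iff_iff.2 ?_⟩
    rw [key x, h1, h2, cst, decide_eq_true_eq]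
    simp

theorem lift_proj {ι : Type} {r κ : ℕ} (C : Finset (Fin r → Bool))
    (F : List Bool → (ι → Bool) → Bool)
    (hF : ∀ z, ∃ p : PS, ∀ x : List Bool, p.eval x = F x z) (z : LV ι r κ → Bool) :
    ∃ p : PS, ∀ x : List Bool, p.eval x = lift C (F x) z := by
  classical
  by_cases h1 : z (Sum.inr none) = true
  · refine ⟨PS.cst (decide (∃ w : Fin r → Bool × Fin κ, (fun b => (w b).1) ∈ C ∧ yp z = oh w)),
      fun x => ?_⟩
    simp only [lift, if_pos h1]
    rfl
  · by_cases h2 : yp z = hub r κ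
    · obtain ⟨p, hp⟩ := hF (xp z)
      refine ⟨p, fun x => ?_⟩
      rw [hp x]
      simp only [lift, if_neg h1, h2]
      simp
    · refine ⟨PS.cst false, fun x => ?_⟩
      simp only [lift, if_neg h1, h2]
      simp [PS.eval]

/-- The number of variables on the level `i + 1`. -/
def nv (n r : ℕ) : ℕ → ℕ
  | 0 => n
  | i + 1 => nv n r i + (1 + r * (2 * (i + 2)))

theorem nv_le (n r i : ℕ) : nv n r i ≤ n + i * (1 + 2 * r * (i + 1)) := by
  induction i with
  | zero => simp [nv]
  | succ i ih =>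
    rw [nv]
    have h1 : i * (1 + 2 * r * (i + 1)) + (1 + r * (2 * (i + 2))) ≤
        (i + 1) * (1 + 2 * r * (i + 1 + 1)) := by
      have : i * (2 * r * (i + 1)) ≤ i * (2 * r * (i + 2)) := by gcongr; omega
      nlinarith
    omega

theorem le_nv (n r i : ℕ) : n ≤ nv n r i := by
  induction i with
  | zero => simp [nv]
  | succ i ih =>
    rw [nv]
    omega

theorem fam (n r t : ℕ) (ht : t ≤ 2 ^ r) (P : List Bool → Prop)
    (ι0 : Type) [Fintype ι0] (h0 : Fintype.card ι0 = n) (F0 : List Bool → (ι0 → Bool) → Bool)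
    (hF0 : ∀ z, ∃ p : PS, ∀ x : List Bool, p.eval x = F0 x z)
    (hP : ∀ x, OrOf (IsLoc 1) (F0 x) t ↔ P x) :
    ∀ i : ℕ, ∃ (ι : Type) (_ : Fintype ι) (F : List Bool → (ι → Bool) → Bool),
      Fintype.card ι = nv n r i ∧ (∀ z, ∃ p : PS, ∀ x : List Bool, p.eval x = F x z) ∧
      ∀ x, OrOf (IsLoc (i + 1)) (F x) t ↔ P x := by
  classical
  intro i
  induction i with
  | zero => exact ⟨ι0, inferInstance, F0, h0, hF0, hP⟩
  | succ i ih =>
    obtain ⟨ι, hι, F, h1, h2, h3⟩ := ih
    have hc : t ≤ (Finset.univ : Finset (Fin r → Bool)).card := by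
      rw [Finset.card_univ, Fintype.card_pi]
      simpa using ht
    obtain ⟨C, _, hC⟩ := Finset.exists_subset_card_eq hc
    refine ⟨LV ι r (i + 1 + 1), inferInstance, fun x => lift C (F x), ?_, ?_, ?_⟩
    · rw [nv, Fintype.card_sum, h1, Fintype.card_option, Fintype.card_prod, Fintype.card_prod,
        Fintype.card_fin, Fintype.card_bool, Fintype.card_fin]
      ring
    · exact lift_proj C F h2
    · intro x
      rw [← h3 x, ← hC]
      exact ⟨fun h => lift_lb C (F x) h, fun h => lift_ub (by omega) C (F x) h⟩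

theorem loc_equiv {k : ℕ} {ι κ : Type} (e : ι ≃ κ) {g : (ι → Bool) → Bool} (h : IsLoc k g) :
    IsLoc k (fun w : κ → Bool => g (fun i => w (e i))) := by
  refine loc_comp h (fun w i => w (e i)) (fun i => some (e i)) ?_
  intro x y i hi
  exact hi _ rfl

theorem orOf_equiv {k : ℕ} {ι κ : Type} (e : ι ≃ κ) (f : (ι → Bool) → Bool) (s : ℕ) :
    OrOf (IsLoc k) (fun w : κ → Bool => f (fun i => w (e i))) s ↔ OrOf (IsLoc k) f s := by
  constructor
  · rintro ⟨gs, h1, h2, h3⟩
    refine ⟨gs.map (fun g x => g (fun j => x (e.symm j))), by rw [List.length_map]; exact h1,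
      ?_, ?_⟩
    · intro g' hg'
      obtain ⟨g, hg, rfl⟩ := List.mem_map.1 hg'
      exact loc_equiv e.symm (h2 g hg)
    · intro x
      have h4 := h3 (fun j => x (e.symm j))
      simp only [Equiv.symm_apply_apply] at h4
      rw [h4]
      constructor
      · rintro ⟨g, hg, hx⟩
        exact ⟨_, List.mem_map.2 ⟨g, hg, rfl⟩, hx⟩
      · rintro ⟨g', hg', hx⟩
        obtain ⟨g, hg, rfl⟩ := List.mem_map.1 hg'
        exact ⟨g, hg, hx⟩
  · rintro ⟨gs, h1, h2, h3⟩
    refine ⟨gs.map (fun g w => g (fun i => w (e i))), by rw [List.length_map]; exact h1,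
      ?_, ?_⟩
    · intro g' hg'
      obtain ⟨g, hg, rfl⟩ := List.mem_map.1 hg'
      exact loc_equiv e (h2 g hg)
    · intro w
      rw [h3]
      constructor
      · rintro ⟨g, hg, hx⟩
        exact ⟨_, List.mem_map.2 ⟨g, hg, rfl⟩, hx⟩
      · rintro ⟨g', hg', hx⟩
        obtain ⟨g, hg, rfl⟩ := List.mem_map.1 hg'
        exact ⟨g, hg, hx⟩

end P65S
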