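import Pool.Agent.Lib.P65S.Fam
import Pool.Agent.Lib.P65S.Cnf3
import Pool.Agent.Lib.P65S.Tseitin
import Pool.Agent.Lib.P65T.HSProj
import Pool.Agent.Lib.P65K.Final

/-!
Assembly.
-/

namespace P65S

open P65 P65T

private theorem map_word {M : ℕ} (sym : Fin (2 ^ M) → PS) (s : ℕ) (x : List Bool)
    (g : (Fin M → Bool) → Bool)
    (h : ∀ k, (sym k).eval x = g (fun i => k.1.testBit i.1)) :
    (List.ofFn sym ++ (bin (M + 1) s).map PS.cst).map (PS.eval x) =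
      ttab g ++ bin (M + 1) s := by
  rw [List.map_append, List.map_ofFn, List.map_map]
  congr 1
  · rw [ttab]
    congr 1
    funext k
    exact h k
  · have h1 : (PS.eval x ∘ PS.cst) = id := by
      funext b
      rfl
    rw [h1, List.map_id]

/-- The two projections of one gated CNF. -/
theorem cnf_proj (i N : ℕ) (hN : 1 ≤ N) (Φ : List (PS × List (ℕ × Bool)))
    (hΦ : ∀ cl ∈ Φ, cl.2 ≠ [] ∧ cl.2.length ≤ 3 ∧ ∀ l ∈ cl.2, l.1 < N) :
    ∃ W W' : List PS,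
      W.length ≤ 2 ^ (30 * (i + 1) ^ 2) * (2 * (6 * N + Φ.length)) ^ (30 * (i + 1) ^ 2) ∧
      W'.length ≤ 2 ^ (30 * (i + 1) ^ 2) * (2 * (6 * N + Φ.length)) ^ (30 * (i + 1) ^ 2) ∧
      ∀ x : List Bool,
        (W.map (PS.eval x) ∈ OrMCSP (fun _ g => IsCNF (i + 1) g) ↔
          ∃ a : ℕ → Bool, ∀ cl ∈ Φ, cl.1.eval x = true → ∃ l ∈ cl.2, a l.1 = l.2) ∧
        (W'.map (PS.eval x) ∈ AndMCSP (fun _ g => IsDNF (i + 1) g) ↔
          ∃ a : ℕ → Bool, ∀ cl ∈ Φ, cl.1.eval x = true → ∃ l ∈ cl.2, a l.1 = l.2) := by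
  classical
  obtain ⟨L, hL1, hL2⟩ := two_pow_between (6 * N + Φ.length) (by omega)
  obtain ⟨hq, hne, hx⟩ := cnf3 N Φ hΦ
  set mm := 6 * N + Φ.length with hmm
  set q := colq N Φ with hq'
  set G := colG N Φ with hG'
  have hM : 2 * N ≤ 2 ^ L := by omega
  set t := nW L (2 * N) + 3 * N with ht
  set n := 8 * (L + 1) + 2 with hn
  set r := 8 * (L + 1) + 1 with hr
  have htr : t ≤ 2 ^ r := by
    have h1 := nW_le L (2 * N)
    have h2 : 3 * N ≤ 2 ^ (8 * (L + 1)) := by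
      calc 3 * N ≤ 2 ^ L := by omega
        _ ≤ 2 ^ (8 * (L + 1)) := Nat.pow_le_pow_right (by norm_num) (by omega)
    rw [hr, pow_succ]
    omega
  obtain ⟨ι, hι, F, hF1, hF2, hF3⟩ := fam n r t htr
    (fun x => ∃ a : ℕ → Bool, ∀ cl ∈ Φ, cl.1.eval x = true → ∃ l ∈ cl.2, a l.1 = l.2)
    (BB L ⊕ Bool) (by
      simp only [BB, Fintype.card_sum, Fintype.card_prod, Fintype.card_fin, Fintype.card_option,
        Fintype.card_bool]
      omega)
    (fun x => base L (2 * N) q (fun j => j < mm ∧ (G j).eval x = true))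
    (base_proj L (2 * N) mm hL1 q G (fun j => negS (G j)) (fun j x => negS_eval x (G j)))
    (fun x => by
      rw [base_iff (2 * N) (3 * N) mm hM q hq hne _ (fun j hj => hj.1)]
      exact (hx x).symm) i
  obtain ⟨M, hMc⟩ : ∃ M, M = Fintype.card ι := ⟨_, rfl⟩
  have hMn : n ≤ M := by
    rw [hMc, hF1]
    exact le_nv n r i
  have hMle : M + 2 ≤ (L + 1) * (30 * (i + 1) ^ 2) := by
    rw [hMc, hF1]
    have h1 := nv_le n r i
    have h2 : n + i * (1 + 2 * r * (i + 1)) + 2 ≤ (L + 1) * (30 * (i + 1) ^ 2) := by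
      rw [hn, hr]
      have e1 : (L + 1) * (30 * (i + 1) ^ 2) = 8 * (L+1) + 16 * (L + 1) * i * (i+1) +
          (L + 1) * (14 * i ^ 2 + 44 * i + 22) := by ring
      have e2 : 8 * (L + 1) + 2 + i * (1 + 2 * (8 * (L + 1) + 1) * (i + 1)) + 2 =
          8 * (L + 1) + 16 * (L + 1) * i * (i + 1) + (2 * i ^ 2 + 3 * i + 4) := by ring
      rw [e1, e2]
      have e3 : 2 * i ^ 2 + 3 * i + 4 ≤ (L + 1) * (14 * i ^ 2 + 44 * i + 22) := by
        calc 2 * i ^ 2 + 3 * i + 4 ≤ 1 * (14 * i ^ 2 + 44 * i + 22) := by nlinarith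
          _ ≤ _ := Nat.mul_le_mul_right _ (by omega)
      omega
    omega
  let e : ι ≃ Fin M := Fintype.equivFinOfCardEq hMc.symm
  have hs1 : t < 2 ^ (M + 1) := by
    refine lt_of_le_of_lt htr (Nat.pow_lt_pow_right (by norm_num) ?_)
    omega
  have hsym : ∀ k : Fin (2 ^ M), ∃ p : PS, ∀ x : List Bool,
      p.eval x = F x (fun i => (fun b : Fin M => k.1.testBit b.1) (e i)) := fun k => hF2 _
  choose sym hsym using hsym
  have hlen : ∀ sy : Fin (2 ^ M) → PS, (List.ofFn sy ++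
      (bin (M + 1) t).map PS.cst).length ≤
        2 ^ (30 * (i + 1) ^ 2) * (2 * mm) ^ (30 * (i + 1) ^ 2) := by
    intro sy
    rw [List.length_append, List.length_ofFn, List.length_map, bin, List.length_ofFn]
    have h3 : M + 1 ≤ 2 ^ M := Nat.lt_two_pow_self
    calc 2 ^ M + (M + 1) ≤ 2 ^ (M + 2) := by
          rw [pow_add]
          omega
      _ ≤ 2 ^ ((L + 1) * (30 * (i + 1) ^ 2)) := Nat.pow_le_pow_right (by norm_num) hMle
      _ = 2 ^ (30 * (i + 1) ^ 2) * (2 ^ L) ^ (30 * (i + 1) ^ 2) := by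
          rw [← pow_mul, ← pow_add]
          congr 1
          ring
      _ ≤ _ := Nat.mul_le_mul_left _ (Nat.pow_le_pow_left hL2 _)
  refine ⟨List.ofFn sym ++ (bin (M + 1) t).map PS.cst,
    List.ofFn (fun k => negS (sym k)) ++ (bin (M + 1) t).map PS.cst,
    hlen _, hlen _, fun x => ⟨?_, ?_⟩⟩
  · rw [map_word sym t x (fun w : Fin M → Bool => F x (fun i => w (e i))) (fun k => hsym k x)]
    rw [mem_OrMCSP _ _ hs1, orOf_congr (fun g => cnf_iff_loc), orOf_equiv e (F x) t]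
    exact hF3 x
  · rw [map_word (fun k => negS (sym k)) t x (bnot (fun w : Fin M → Bool =>
      F x (fun i => w (e i)))) (fun k => by
        rw [negS_eval, hsym k x]
        rfl)]
    rw [mem_AndMCSP _ _ hs1, andOf_dnf_iff, orOf_congr (fun g => cnf_iff_loc),
      orOf_equiv e (F x) t]
    exact hF3 x

theorem npPoly_projS (i : ℕ) (L : Set (List Bool)) (hL : NPpoly L) :
    ∃ d : ℕ, ∀ m, 1 ≤ m → ∃ W W' : List PS, W.length ≤ m ^ d + d ∧ W'.length ≤ m ^ d + d ∧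
      ∀ x : List Bool, x.length = m →
        (W.map (PS.eval x) ∈ OrMCSP (fun _ g => IsCNF (i + 1) g) ↔ x ∈ L) ∧
        (W'.map (PS.eval x) ∈ AndMCSP (fun _ g => IsDNF (i + 1) g) ↔ x ∈ L) := by
  obtain ⟨d, hd⟩ := hL
  set E := 30 * (i + 1) ^ 2 with hE
  obtain ⟨d', hd'⟩ := poly_bound d (2 ^ E * 38 ^ E) E
  refine ⟨d', fun m hm => ?_⟩
  obtain ⟨C, k, hC, hk, hno, hx⟩ := hd m hm
  obtain ⟨Φ, hΦl, hΦ, hΦx⟩ := tseitin m k C hno
  obtain ⟨W, W', hW, hW', hWx⟩ := cnf_proj i (C.length + k + 1) (by omega) Φ hΦ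
  have hb : 2 ^ E * (2 * (6 * (C.length + k + 1) + Φ.length)) ^ E ≤ m ^ d' + d' := by
    refine le_trans ?_ (hd' m hm)
    have hCl : C.length ≤ m ^ d + d := le_trans (FinalKAux.length_le_csize C) hC
    generalize m ^ d + d = t at hCl hk
    have h1 : 2 * (6 * (C.length + k + 1) + Φ.length) ≤ 38 * (t + 1) := by omega
    calc 2 ^ E * (2 * (6 * (C.length + k + 1) + Φ.length)) ^ E
        ≤ 2 ^ E * (38 * (t + 1)) ^ E := Nat.mul_le_mul_left _ (Nat.pow_le_pow_left h1 _)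
      _ = 2 ^ E * 38 ^ E * (t + 1) ^ E := by rw [mul_pow, mul_assoc]
  refine ⟨W, W', hW.trans hb, hW'.trans hb, fun x hxm => ⟨?_, ?_⟩⟩
  · rw [(hWx x).1, ← hΦx x hxm, hx x hxm]
  · rw [(hWx x).2, ← hΦx x hxm, hx x hxm]

end P65S
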