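import Pool.Agent.Lib.P65S.Loc

/-!
The parity gadget (after Gimpel): from coverings with optional points to coverings of a total
function.
-/

namespace P65S

open P65 P65T

variable {B : Type} [Fintype B]

/-- The parity of a point. -/
def par (w : B → Bool) : ZMod 2 := ∑ b, if w b = true then 1 else 0

theorem par_update [DecidableEq B] (w : B → Bool) (b : B) :
    par (Function.update w b (!w b)) = par w + 1 := by
  unfold par
  rw [← Finset.add_sum_erase _ _ (Finset.mem_univ b),
    ← Finset.add_sum_erase (a := b) (f := fun b => if w b = true then (1 : ZMod 2) else 0) _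
      (Finset.mem_univ b)]
  have h1 : ∑ x ∈ Finset.univ.erase b,
      (if Function.update w b (!w b) x = true then (1 : ZMod 2) else 0) =
      ∑ x ∈ Finset.univ.erase b, (if w x = true then (1 : ZMod 2) else 0) := by
    refine Finset.sum_congr rfl (fun x hx => ?_)
    rw [Function.update_of_ne (Finset.ne_of_mem_erase hx)]
  rw [h1, Function.update_self]
  have h2 : (1 : ZMod 2) + 1 = 0 := by decide
  cases w b
  · simp only [Bool.not_false, if_true, Bool.false_eq_true, if_false]
    ring
  · simp only [Bool.not_true, Bool.false_eq_true, if_false, if_true]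
    linear_combination -h2

/-- The first part of a point. -/
def wp (x : B ⊕ Bool → Bool) : B → Bool := fun b => x (Sum.inl b)

/-- A point from its parts. -/
def gp (w : B → Bool) (y y' : Bool) : B ⊕ Bool → Bool :=
  Sum.elim w (fun s => if s = true then y' else y)

open Classical in
/-- The total function. -/
noncomputable def gim (W act : (B → Bool) → Prop) (x : B ⊕ Bool → Bool) : Bool :=
  if x (Sum.inr false) = true then
    (if x (Sum.inr true) = true then decide (W (wp x))
      else decide (W (wp x) ∧ ¬ act (wp x) ∧ par (wp x) = 0))
  else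
    (if x (Sum.inr true) = true then decide (W (wp x) ∧ ¬ act (wp x) ∧ par (wp x) = 1)
      else decide (act (wp x)))

open Classical in
/-- The private point. -/
noncomputable def pr (act : (B → Bool) → Prop) (w : B → Bool) : B ⊕ Bool → Bool :=
  if act w then gp w false false else if par w = 0 then gp w true false else gp w false true

theorem par_cases (w : B → Bool) : par w = 0 ∨ par w = 1 := by
  generalize par w = p
  revert p
  decide

omit [Fintype B] in
theorem wp_gp (w : B → Bool) (y y' : Bool) : wp (gp w y y') = w := rfl
omit [Fintype B] in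
theorem gp_f (w : B → Bool) (y y' : Bool) : gp w y y' (Sum.inr false) = y := rfl
omit [Fintype B] in
theorem gp_t (w : B → Bool) (y y' : Bool) : gp w y y' (Sum.inr true) = y' := rfl

theorem gim_gp (W act : (B → Bool) → Prop) (w : B → Bool) (y y' : Bool) :
    gim W act (gp w y y') = true ↔
      (y = true ∧ y' = true ∧ W w) ∨ (y = true ∧ y' = false ∧ W w ∧ ¬ act w ∧ par w = 0) ∨
      (y = false ∧ y' = true ∧ W w ∧ ¬ act w ∧ par w = 1) ∨
      (y = false ∧ y' = false ∧ act w) := by
  unfold gim
  rw [wp_gp, gp_f, gp_t]
  cases y <;> cases y' <;> simp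

omit [Fintype B] in
theorem gp_eta (x : B ⊕ Bool → Bool) :
    x = gp (wp x) (x (Sum.inr false)) (x (Sum.inr true)) := by
  funext j
  rcases j with b | (_ | _) <;> rfl

theorem wp_pr (act : (B → Bool) → Prop) (w : B → Bool) : wp (pr act w) = w := by
  unfold pr
  split_ifs <;> rfl

theorem gim_pr (W act : (B → Bool) → Prop) (w : B → Bool) (hw : W w) :
    gim W act (pr act w) = true := by
  unfold pr
  split_ifs with h1 h2
  · rw [gim_gp]
    exact Or.inr (Or.inr (Or.inr ⟨rfl, rfl, h1⟩))
  · rw [gim_gp]
    exact Or.inr (Or.inl ⟨rfl, rfl, hw, h1, h2⟩)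
  · rw [gim_gp]
    exact Or.inr (Or.inr (Or.inl ⟨rfl, rfl, hw, h1, (par_cases w).resolve_left h2⟩))

/-- Mixing of points for 1-local functions. -/
theorem mix {ι : Type} {g : (ι → Bool) → Bool} (hg : IsLoc 1 g) (x y z : ι → Bool)
    (hx : g x = true) (hy : g y = true) (hz : ∀ i, z i = x i ∨ z i = y i) : g z = true := by
  by_contra hcon
  obtain ⟨K, hK, hK2⟩ := hg z (by simpa using hcon)
  rcases Nat.lt_or_ge 0 K.card with h | h
  · have h1 : K.card = 1 := by omega
    obtain ⟨i, rfl⟩ := Finset.card_eq_one.1 h1
    rcases hz i with h2 | h2
    · have := hK2 x (by simp [h2])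
      rw [hx] at this
      exact absurd this (by simp)
    · have := hK2 y (by simp [h2])
      rw [hy] at this
      exact absurd this (by simp)
  · have h1 : K = ∅ := Finset.card_eq_zero.1 (by omega)
    subst h1
    have := hK2 x (by simp)
    rw [hx] at this
    exact absurd this (by simp)

/-- Mixing of many points. -/
theorem mixm {ι : Type} {g : (ι → Bool) → Bool} (hg : IsLoc 1 g) (z : ι → Bool)
    (hne : ∃ x, g x = true) (hz : ∀ i, ∃ x, g x = true ∧ x i = z i) : g z = true := by
  by_contra hcon
  obtain ⟨K, hK, hK2⟩ := hg z (by simpa using hcon)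
  rcases Nat.lt_or_ge 0 K.card with h | h
  · have h1 : K.card = 1 := by omega
    obtain ⟨i, rfl⟩ := Finset.card_eq_one.1 h1
    obtain ⟨x, hx, hxi⟩ := hz i
    have := hK2 x (by simp [hxi])
    rw [hx] at this
    exact absurd this (by simp)
  · have h1 : K = ∅ := Finset.card_eq_zero.1 (by omega)
    subst h1
    obtain ⟨x, hx⟩ := hne
    have := hK2 x (by simp)
    rw [hx] at this
    exact absurd this (by simp)

/-- The points of a 1-local set that contains a private point. -/
theorem of_private (W act : (B → Bool) → Prop)
    (hadj : ∀ w w' : B → Bool, act w → act w' → Adj1 w w' → False)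
    (g : (B ⊕ Bool → Bool) → Bool) (hg : IsLoc 1 g) (hle : ∀ x, g x = true → gim W act x = true)
    (w : B → Bool) (hpr : g (pr act w) = true) (x : B ⊕ Bool → Bool) (hx : g x = true) :
    wp x = w ∧ (x = pr act w ∨ ¬ act w) := by
  classical
  have hw : wp x = w := by
    by_contra hne
    have h1 : ∃ b, wp x b ≠ w b := by
      by_contra hcon
      push Not at hcon
      exact hne (funext hcon)
    obtain ⟨b, hb⟩ := h1
    have hb' : wp x b = !w b := by
      cases h : w b <;> cases h' : wp x b <;> simp_all
    set y := pr act w (Sum.inr false) with hy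
    set y' := pr act w (Sum.inr true) with hy'
    have hz := mix hg (pr act w) x (gp (Function.update w b (!w b)) y y') hpr hx (by
      intro i
      rcases i with b' | (_ | _)
      · by_cases hbb : b' = b
        · subst hbb
          right
          have : x (Sum.inl b') = !w b' := hb'
          rw [this]
          simp [gp]
        · left
          have h2 : pr act w (Sum.inl b') = w b' := congrFun (wp_pr act w) b'
          rw [h2]
          simp [gp, hbb]
      · left
        rfl
      · left
        rfl)
    have hz2 := hle _ hz
    rw [gim_gp] at hz2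
    have hpu := par_update w b
    have h11 : (1 : ZMod 2) ≠ 0 := by decide
    have h12 : (1 : ZMod 2) + 1 ≠ 1 := by decide
    by_cases ha : act w
    · have e1 : y = false := by rw [hy, pr, if_pos ha]; rfl
      have e2 : y' = false := by rw [hy', pr, if_pos ha]; rfl
      rw [e1, e2] at hz2
      have ha' : act (Function.update w b (!w b)) := by simpa using hz2
      refine hadj _ _ ha' ha ⟨b, ?_, ?_⟩
      · simp
      · intro j hj
        rw [Function.update_of_ne hj]
    · by_cases hp : par w = 0
      · have e1 : y = true := by rw [hy, pr, if_neg ha, if_pos hp]; rfl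
        have e2 : y' = false := by rw [hy', pr, if_neg ha, if_pos hp]; rfl
        rw [e1, e2, hpu, hp, zero_add] at hz2
        simp at hz2
      · have hp1 := (par_cases w).resolve_left hp
        have e1 : y = false := by rw [hy, pr, if_neg ha, if_neg hp]; rfl
        have e2 : y' = true := by rw [hy', pr, if_neg ha, if_neg hp]; rfl
        rw [e1, e2, hpu, hp1] at hz2
        simp at hz2
  refine ⟨hw, ?_⟩
  by_cases ha : act w
  · left
    have hx2 := hle _ hx
    rw [gp_eta x, gim_gp, hw] at hx2
    rcases hx2 with ⟨h1, h2, _⟩ | ⟨_, _, _, h3, _⟩ | ⟨_, _, _, h3, _⟩ | ⟨h1, h2, _⟩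
    · exfalso
      have hz := mix hg (pr act w) x (gp w true false) hpr hx (by
        intro i
        rcases i with b' | (_ | _)
        · left
          exact (congrFun (wp_pr act w) b').symm
        · right
          exact h1.symm
        · left
          rw [pr, if_pos ha]
          rfl)
      have hz2 := hle _ hz
      rw [gim_gp] at hz2
      simp [ha] at hz2
    · exact absurd ha h3
    · exact absurd ha h3
    · rw [gp_eta x, hw, h1, h2, pr, if_pos ha]
  · exact Or.inr ha

end P65S
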