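import Pool.Agent.Lib.P65S.Gim

/-!
The number of 1-local sets needed for the total function.
-/

namespace P65S

open P65 P65T

variable {B : Type} [Fintype B]

/-- The coordinate of `w` behind a coordinate of the point. -/
def wc (j : B ⊕ Bool) : Option B := Sum.elim some (fun _ => none) j

theorem gim_lb (W act : (B → Bool) → Prop) (hact : ∀ w, act w → W w)
    (hadj : ∀ w w' : B → Bool, act w → act w' → Adj1 w w' → False)
    (n K : ℕ) (hn : n = Nat.card {w : B → Bool // W w})
    (h : OrOf (IsLoc 1) (gim W act) (n + K)) :
    ∃ hs : List ((B → Bool) → Bool), hs.length ≤ K ∧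
      (∀ h ∈ hs, IsLoc 1 h ∧ ∀ w, h w = true → W w) ∧
      ∀ w, act w → ∃ h ∈ hs, h w = true := by
  classical
  obtain ⟨gs, h1, h2, h3⟩ := h
  have hle : ∀ g ∈ gs, ∀ x, g x = true → gim W act x = true := fun g hg x hx =>
    (h3 x).2 ⟨g, hg, hx⟩
  have hex : ∀ w : {w : B → Bool // W w}, ∃ i : Fin gs.length,
      gs[i.1] (pr act w.1) = true := by
    intro w
    obtain ⟨g, hg, hx⟩ := (h3 _).1 (gim_pr W act w.1 w.2)
    obtain ⟨i, hi, rfl⟩ := List.mem_iff_getElem.1 hg
    exact ⟨⟨i, hi⟩, hx⟩
  choose φ hφ using hex
  have hinj : Function.Injective φ := by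
    intro w w' he
    have e1 := hφ w
    have e2 := hφ w'
    rw [← he] at e2
    have := (of_private W act hadj _ (h2 _ (List.getElem_mem _)) (hle _ (List.getElem_mem _)) w.1
      e1 _ e2).1
    rw [wp_pr] at this
    exact Subtype.ext this.symm
  set I : Finset (Fin gs.length) := Finset.univ \ Finset.univ.image φ with hI
  have hcard : I.card ≤ K := by
    have e1 : (Finset.univ.image φ).card = n := by
      rw [Finset.card_image_of_injective _ hinj, Finset.card_univ, hn, Nat.card_eq_fintype_card]
    have e2 : I.card = gs.length - n := by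
      rw [hI, Finset.card_sdiff_of_subset (Finset.subset_univ _), e1, Finset.card_univ,
        Fintype.card_fin]
    omega
  refine ⟨I.toList.map (fun i w => gs[i.1] (gp w true true)), ?_, ?_, ?_⟩
  · rw [List.length_map, Finset.length_toList]
    exact hcard
  · intro h hh
    obtain ⟨i, _, rfl⟩ := List.mem_map.1 hh
    constructor
    · refine loc_comp (h2 _ (List.getElem_mem _)) (fun w => gp w true true) wc ?_
      intro x y j hj
      rcases j with b | s
      · exact hj b rfl
      · rfl
    · intro w hw
      have := hle _ (List.getElem_mem _) _ hw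
      rw [gim_gp] at this
      simpa using this
  · intro w hw
    have e1 : gim W act (gp w true true) = true := by
      rw [gim_gp]
      exact Or.inl ⟨rfl, rfl, hact w hw⟩
    obtain ⟨g, hg, hx⟩ := (h3 _).1 e1
    obtain ⟨i, hi, rfl⟩ := List.mem_iff_getElem.1 hg
    refine ⟨_, List.mem_map.2 ⟨⟨i, hi⟩, ?_, rfl⟩, hx⟩
    rw [Finset.mem_toList, hI, Finset.mem_sdiff]
    refine ⟨Finset.mem_univ _, fun hmem => ?_⟩
    obtain ⟨w', _, he⟩ := Finset.mem_image.1 hmem
    have e2 := hφ w'
    rw [he] at e2
    have e3 := of_private W act hadj _ (h2 _ (List.getElem_mem _)) (hle _ (List.getElem_mem _))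
      w'.1 e2 _ hx
    rw [wp_gp] at e3
    obtain ⟨e4, e5⟩ := e3
    rcases e5 with e5 | e5
    · rw [e4] at hw
      have e6 := congrFun e5 (Sum.inr false)
      rw [gp_f, pr, if_pos (e4 ▸ hw), gp_f] at e6
      exact absurd e6 (by simp)
    · exact e5 (e4 ▸ hw)

open Classical in
/-- The set of one optional point and its private point. -/
noncomputable def edge (act : (B → Bool) → Prop) (w : B → Bool) (x : B ⊕ Bool → Bool) : Bool :=
  decide (wp x = w ∧ (x = pr act w ∨ (¬ act w ∧ x (Sum.inr false) = true ∧
    x (Sum.inr true) = true)))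

theorem edge_loc (act : (B → Bool) → Prop) (w : B → Bool) : IsLoc 1 (edge act w) := by
  classical
  intro x hx
  simp only [edge, decide_eq_false_iff_not] at hx
  by_cases hw : wp x = w
  · have hx2 : ¬ (x = pr act w ∨ (¬ act w ∧ x (Sum.inr false) = true ∧
      x (Sum.inr true) = true)) := fun h => hx ⟨hw, h⟩
    push Not at hx2
    obtain ⟨hx3, hx4⟩ := hx2
    by_cases ha : act w
    · -- the private point is `(w, 00)`
      have h5 : x (Sum.inr false) = true ∨ x (Sum.inr true) = true := by
        by_contra hcon
        push Not at hcon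
        apply hx3
        rw [gp_eta x, hw, pr, if_pos ha]
        congr 1
        · simpa using hcon.1
        · simpa using hcon.2
      rcases h5 with h5 | h5
      · refine ⟨{Sum.inr false}, by simp, fun y hy => ?_⟩
        have h6 := hy (Sum.inr false) (by simp)
        rw [h5] at h6
        simp only [edge, decide_eq_false_iff_not]
        rintro ⟨_, h7 | h7⟩
        · rw [h7, pr, if_pos ha, gp_f] at h6
          exact absurd h6 (by simp)
        · exact h7.1 ha
      · refine ⟨{Sum.inr true}, by simp, fun y hy => ?_⟩
        have h6 := hy (Sum.inr true) (by simp)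
        rw [h5] at h6
        simp only [edge, decide_eq_false_iff_not]
        rintro ⟨_, h7 | h7⟩
        · rw [h7, pr, if_pos ha, gp_t] at h6
          exact absurd h6 (by simp)
        · exact h7.1 ha
    · have hx5 : ¬ (x (Sum.inr false) = true ∧ x (Sum.inr true) = true) := by
        rintro ⟨h5, h6⟩
        exact hx4 ha h5 h6
      by_cases hp : par w = 0
      · have h5 : x (Sum.inr false) = false := by
          by_contra hcon
          have h6 : x (Sum.inr false) = true := by simpa using hcon
          have h7 : x (Sum.inr true) = false := by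
            by_contra h8
            exact hx5 ⟨h6, by simpa using h8⟩
          apply hx3
          rw [gp_eta x, hw, h6, h7, pr, if_neg ha, if_pos hp]
        refine ⟨{Sum.inr false}, by simp, fun y hy => ?_⟩
        have h6 := hy (Sum.inr false) (by simp)
        rw [h5] at h6
        simp only [edge, decide_eq_false_iff_not]
        rintro ⟨_, h7 | h7⟩
        · rw [h7, pr, if_neg ha, if_pos hp, gp_f] at h6
          exact absurd h6 (by simp)
        · rw [h7.2.1] at h6
          exact absurd h6 (by simp)
      · have h5 : x (Sum.inr true) = false := by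
          by_contra hcon
          have h6 : x (Sum.inr true) = true := by simpa using hcon
          have h7 : x (Sum.inr false) = false := by
            by_contra h8
            exact hx5 ⟨by simpa using h8, h6⟩
          apply hx3
          rw [gp_eta x, hw, h6, h7, pr, if_neg ha, if_neg hp]
        refine ⟨{Sum.inr true}, by simp, fun y hy => ?_⟩
        have h6 := hy (Sum.inr true) (by simp)
        rw [h5] at h6
        simp only [edge, decide_eq_false_iff_not]
        rintro ⟨_, h7 | h7⟩
        · rw [h7, pr, if_neg ha, if_neg hp, gp_t] at h6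
          exact absurd h6 (by simp)
        · rw [h7.2.2] at h6
          exact absurd h6 (by simp)
  · have h1 : ∃ b, wp x b ≠ w b := by
      by_contra hcon
      push Not at hcon
      exact hw (funext hcon)
    obtain ⟨b, hb⟩ := h1
    refine ⟨{Sum.inl b}, by simp, fun y hy => ?_⟩
    have h6 := hy (Sum.inl b) (by simp)
    simp only [edge, decide_eq_false_iff_not]
    rintro ⟨h7, _⟩
    apply hb
    rw [← h7]
    exact h6.symm

theorem edge_le (W act : (B → Bool) → Prop) (w : B → Bool) (hw : W w) (x : B ⊕ Bool → Bool)
    (hx : edge act w x = true) : gim W act x = true := by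
  simp only [edge, decide_eq_true_eq] at hx
  obtain ⟨h1, h2 | ⟨h2, h3, h4⟩⟩ := hx
  · rw [h2]
    exact gim_pr W act w hw
  · rw [gp_eta x, h1, h3, h4, gim_gp]
    exact Or.inl ⟨rfl, rfl, hw⟩

theorem gim_ub (W act : (B → Bool) → Prop) (hact : ∀ w, act w → W w)
    (n K : ℕ) (hn : n = Nat.card {w : B → Bool // W w})
    (hs : List ((B → Bool) → Bool)) (h1 : hs.length ≤ K)
    (h2 : ∀ h ∈ hs, IsLoc 1 h ∧ ∀ w, h w = true → W w)
    (h3 : ∀ w, act w → ∃ h ∈ hs, h w = true) :
    OrOf (IsLoc 1) (gim W act) (n + K) := by
  classical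
  have hcard : (Finset.univ.filter fun w : B → Bool => W w).toList.length = n := by
    rw [Finset.length_toList, hn, Nat.card_eq_fintype_card, Fintype.card_subtype]
  refine ⟨((Finset.univ.filter fun w : B → Bool => W w).toList).map (edge act) ++
    hs.map (fun h x => h (wp x) && (x (Sum.inr false) && x (Sum.inr true))), ?_, ?_, ?_⟩
  · rw [List.length_append, List.length_map, List.length_map, hcard]
    omega
  · intro g hg
    rw [List.mem_append] at hg
    rcases hg with hg | hg
    · obtain ⟨w, _, rfl⟩ := List.mem_map.1 hg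
      exact edge_loc act w
    · obtain ⟨h, hh, rfl⟩ := List.mem_map.1 hg
      intro x hx
      simp only at hx
      by_cases e1 : x (Sum.inr false) = true
      · by_cases e2 : x (Sum.inr true) = true
        · have e3 : h (wp x) = false := by simpa [e1, e2] using hx
          obtain ⟨Q, hQ, hQ2⟩ := (h2 h hh).1 _ e3
          refine ⟨Q.image Sum.inl, Finset.card_image_le.trans hQ, fun y hy => ?_⟩
          have e4 : h (wp y) = false := hQ2 _ (fun b hb => hy _ (Finset.mem_image.2 ⟨b, hb, rfl⟩))
          simp [e4]
        · refine ⟨{Sum.inr true}, by simp, fun y hy => ?_⟩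
          have e4 := hy (Sum.inr true) (by simp)
          have e5 : y (Sum.inr true) = false := by rw [e4]; simpa using e2
          simp [e5]
      · refine ⟨{Sum.inr false}, by simp, fun y hy => ?_⟩
        have e4 := hy (Sum.inr false) (by simp)
        have e5 : y (Sum.inr false) = false := by rw [e4]; simpa using e1
        simp [e5]
  · intro x
    constructor
    · intro hx
      have hx0 := hx
      rw [gp_eta x, gim_gp] at hx
      rcases hx with ⟨e1, e2, e3⟩ | ⟨e1, e2, e3, e4, e5⟩ | ⟨e1, e2, e3, e4, e5⟩ | ⟨e1, e2, e3⟩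
      · by_cases ha : act (wp x)
        · obtain ⟨h, hh, hhx⟩ := h3 _ ha
          refine ⟨_, List.mem_append_right _ (List.mem_map.2 ⟨h, hh, rfl⟩), ?_⟩
          simp [hhx, e1, e2]
        · refine ⟨_, List.mem_append_left _ (List.mem_map.2 ⟨wp x, ?_, rfl⟩), ?_⟩
          · rw [Finset.mem_toList, Finset.mem_filter]
            exact ⟨Finset.mem_univ _, e3⟩
          · simp only [edge, decide_eq_true_eq]
            exact ⟨trivial, Or.inr ⟨ha, e1, e2⟩⟩
      · refine ⟨_, List.mem_append_left _ (List.mem_map.2 ⟨wp x, ?_, rfl⟩), ?_⟩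
        · rw [Finset.mem_toList, Finset.mem_filter]
          exact ⟨Finset.mem_univ _, e3⟩
        · simp only [edge, decide_eq_true_eq]
          refine ⟨trivial, Or.inl ?_⟩
          rw [pr, if_neg e4, if_pos e5, ← e1]
          nth_rewrite 1 [gp_eta x]
          rw [e1, e2]
      · refine ⟨_, List.mem_append_left _ (List.mem_map.2 ⟨wp x, ?_, rfl⟩), ?_⟩
        · rw [Finset.mem_toList, Finset.mem_filter]
          exact ⟨Finset.mem_univ _, e3⟩
        · simp only [edge, decide_eq_true_eq]
          refine ⟨trivial, Or.inl ?_⟩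
          have e6 : ¬ par (wp x) = 0 := by rw [e5]; decide
          rw [pr, if_neg e4, if_neg e6]
          nth_rewrite 1 [gp_eta x]
          rw [e1, e2]
      · refine ⟨_, List.mem_append_left _ (List.mem_map.2 ⟨wp x, ?_, rfl⟩), ?_⟩
        · rw [Finset.mem_toList, Finset.mem_filter]
          exact ⟨Finset.mem_univ _, hact _ e3⟩
        · simp only [edge, decide_eq_true_eq]
          refine ⟨trivial, Or.inl ?_⟩
          rw [pr, if_pos e3]
          nth_rewrite 1 [gp_eta x]
          rw [e1, e2]
    · rintro ⟨g, hg, hx⟩
      rw [List.mem_append] at hg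
      rcases hg with hg | hg
      · obtain ⟨w, hw, rfl⟩ := List.mem_map.1 hg
        rw [Finset.mem_toList, Finset.mem_filter] at hw
        exact edge_le W act w hw.2 x hx
      · obtain ⟨h, hh, rfl⟩ := List.mem_map.1 hg
        simp only [Bool.and_eq_true] at hx
        rw [gp_eta x, gim_gp]
        exact Or.inl ⟨hx.2.1, hx.2.2, (h2 h hh).2 _ hx.1⟩

end P65S
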