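import Pool.Agent.Lib.P65S.GimIff

/-!
Blocks of doubled binary codes: the set `WW` of the points one of whose first three blocks is the
code of a row; a 1-local subset of `WW` lies in the cylinder of one row.
-/

namespace P65S

open P65 P65T

variable {L : ℕ}

/-- Coordinates: block, position, copy. -/
abbrev BB (L : ℕ) := Fin 4 × (Option (Fin L) × Bool)

/-- The code of a number. -/
def cb (L : ℕ) (u : ℕ) : Option (Fin L) → Bool
  | none => false
  | some i => u.testBit i.1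

/-- The code of no row. -/
def z0 (L : ℕ) : Option (Fin L) → Bool
  | none => true
  | some _ => false

/-- The block `a` of `w` is the doubled vector `c`. -/
def Blk (w : BB L → Bool) (a : Fin 4) (c : Option (Fin L) → Bool) : Prop :=
  ∀ i s, w (a, (i, s)) = c i

/-- One of the first three blocks is the code of a row. -/
def WW (L M : ℕ) (w : BB L → Bool) : Prop :=
  ∃ a : Fin 4, a ≠ 3 ∧ ∃ u < M, Blk w a (cb L u)

/-- The vector of an optional row. -/
def oc (L : ℕ) : Option ℕ → Option (Fin L) → Bool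
  | none => z0 L
  | some u => cb L u

/-- The code of the column number `j`. -/
def pc (L : ℕ) (q : ℕ → Fin 4 → Option ℕ) (j : ℕ) : BB L → Bool :=
  fun p => if p.1 = 3 then cb L j p.2.1 else oc L (q j p.1) p.2.1

theorem cb_inj {u v : ℕ} (hu : u < 2 ^ L) (hv : v < 2 ^ L) (h : cb L u = cb L v) : u = v := by
  apply Nat.eq_of_testBit_eq
  intro i
  by_cases hi : i < L
  · exact congrFun h (some ⟨i, hi⟩)
  · have e : 2 ^ L ≤ 2 ^ i := Nat.pow_le_pow_right (by norm_num) (not_lt.1 hi)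
    rw [Nat.testBit_lt_two_pow (lt_of_lt_of_le hu e), Nat.testBit_lt_two_pow (lt_of_lt_of_le hv e)]

theorem z0_ne (u : ℕ) : z0 L ≠ cb L u := by
  intro h
  have := congrFun h none
  simp [z0, cb] at this

theorem blk_pc (q : ℕ → Fin 4 → Option ℕ) (j : ℕ) (a : Fin 4) (ha : a ≠ 3) (u : ℕ)
    (M : ℕ) (hM : M ≤ 2 ^ L) (hu : u < M) (hq : ∀ v, q j a = some v → v < M) :
    Blk (pc L q j) a (cb L u) ↔ q j a = some u := by
  constructor
  · intro h
    have h1 : oc L (q j a) = cb L u := by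
      funext i
      have := h i false
      simpa [pc, ha] using this
    rcases hqa : q j a with _ | v
    · rw [hqa] at h1
      exact absurd h1 (z0_ne u)
    · rw [hqa] at h1
      have := cb_inj (lt_of_lt_of_le (hq v hqa) hM) (lt_of_lt_of_le hu hM) h1
      rw [this]
  · intro h i s
    simp [pc, ha, h, oc]

theorem pc_inj (q : ℕ → Fin 4 → Option ℕ) {j j' : ℕ} (hj : j < 2 ^ L) (hj' : j' < 2 ^ L)
    (h : pc L q j = pc L q j') : j = j' := by
  apply cb_inj hj hj'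
  funext i
  have := congrFun h (3, (i, false))
  simpa [pc] using this

theorem pc_not_adj (q : ℕ → Fin 4 → Option ℕ) (j j' : ℕ) :
    ¬ Adj1 (pc L q j) (pc L q j') := by
  rintro ⟨⟨a, i, s⟩, h1, h2⟩
  have h3 := h2 (a, (i, !s)) (by
    intro he
    simp only [Prod.mk.injEq, true_and] at he
    cases s <;> simp at he)
  apply h1
  simp only [pc] at h3 ⊢
  exact h3

theorem one_row (M : ℕ) (g : (BB L → Bool) → Bool) (hg : IsLoc 1 g)
    (hle : ∀ w, g w = true → WW L M w) (w0 : BB L → Bool) (h0 : g w0 = true) :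
    ∃ a : Fin 4, a ≠ 3 ∧ ∃ u < M, ∀ w, g w = true → Blk w a (cb L u) := by
  classical
  -- some block is always a row
  have h1 : ∃ a : Fin 4, a ≠ 3 ∧ ∀ w, g w = true → ∃ u < M, Blk w a (cb L u) := by
    by_contra hcon
    push Not at hcon
    have h2 : ∀ a : Fin 4, ∃ w, g w = true ∧ (a ≠ 3 → ∀ u < M, ¬ Blk w a (cb L u)) := by
      intro a
      by_cases ha : a = 3
      · exact ⟨w0, h0, fun h => absurd ha h⟩
      · obtain ⟨w, hw, h3⟩ := hcon a ha
        exact ⟨w, hw, fun _ => h3⟩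
    choose ws hws hws2 using h2
    have h3 : g (fun p => ws p.1 p) = true := mixm hg _ ⟨w0, h0⟩ (fun p => ⟨ws p.1, hws p.1, rfl⟩)
    obtain ⟨a, ha, u, hu, hb⟩ := hle _ h3
    exact hws2 a ha u hu (fun i s => hb i s)
  obtain ⟨a, ha, h2⟩ := h1
  obtain ⟨u, hu, hb⟩ := h2 w0 h0
  refine ⟨a, ha, u, hu, ?_⟩
  intro w hw
  obtain ⟨v, hv, hbv⟩ := h2 w hw
  intro i s
  by_contra hne
  have hne' : cb L v i ≠ cb L u i := by
    rw [← hbv i s]
    exact hne
  -- mix: take one coordinate from `w`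
  have h3 : g (Function.update w0 (a, (i, s)) (w (a, (i, s)))) = true := by
    refine mix hg w0 w _ h0 hw (fun p => ?_)
    by_cases hp : p = (a, (i, s))
    · subst hp
      right
      rw [Function.update_self]
    · left
      rw [Function.update_of_ne hp]
  obtain ⟨v', hv', hb'⟩ := h2 _ h3
  have e1 := hb' i s
  have e2 := hb' i (!s)
  rw [Function.update_self, hbv i s] at e1
  rw [Function.update_of_ne (by
    intro he
    simp only [Prod.mk.injEq, true_and] at he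
    cases s <;> simp at he), hb i (!s)] at e2
  exact hne' (e1.trans e2.symm)

/-- The cylinder of a row. -/
theorem cyl_loc [DecidableEq (BB L → Bool)] (a : Fin 4) (c : Option (Fin L) → Bool)
    [DecidablePred fun w : BB L → Bool => Blk w a c] :
    IsLoc 1 (fun w : BB L → Bool => decide (Blk w a c)) := by
  intro w hw
  rw [decide_eq_false_iff_not] at hw
  unfold Blk at hw
  push Not at hw
  obtain ⟨i, s, h⟩ := hw
  refine ⟨{(a, (i, s))}, by simp, fun y hy => ?_⟩
  rw [decide_eq_false_iff_not]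
  intro hb
  apply h
  rw [← hy _ (by simp)]
  exact hb i s

/-- The number of 1-local sets for the active columns. -/
theorem rows_iff (M K mm : ℕ) (hM : M ≤ 2 ^ L) (q : ℕ → Fin 4 → Option ℕ)
    (hq : ∀ j < mm, ∀ a v, q j a = some v → v < M) (γ : ℕ → Prop) (hγ : ∀ j, γ j → j < mm) :
    (∃ hs : List ((BB L → Bool) → Bool), hs.length ≤ K ∧
      (∀ h ∈ hs, IsLoc 1 h ∧ ∀ w, h w = true → WW L M w) ∧
      ∀ w, (∃ j, γ j ∧ w = pc L q j) → ∃ h ∈ hs, h w = true) ↔
    ∃ U : Finset (Fin 4 × ℕ), U.card ≤ K ∧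
      ∀ j, γ j → ∃ p ∈ U, p.1 ≠ 3 ∧ p.2 < M ∧ q j p.1 = some p.2 := by
  classical
  constructor
  · rintro ⟨hs, h1, h2, h3⟩
    have h4 : ∀ h : (BB L → Bool) → Bool, ∃ p : Fin 4 × ℕ, h ∈ hs → (∃ w, h w = true) →
        p.1 ≠ 3 ∧ p.2 < M ∧ ∀ w, h w = true → Blk w p.1 (cb L p.2) := by
      intro h
      by_cases hh : h ∈ hs ∧ ∃ w, h w = true
      · obtain ⟨hh1, w0, hw0⟩ := hh
        obtain ⟨a, ha, u, hu, hb⟩ := one_row M h (h2 h hh1).1 (h2 h hh1).2 w0 hw0
        exact ⟨(a, u), fun _ _ => ⟨ha, hu, hb⟩⟩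
      · exact ⟨(0, 0), fun e1 e2 => absurd ⟨e1, e2⟩ hh⟩
    choose ρ hρ using h4
    refine ⟨(hs.map ρ).toFinset, ?_, ?_⟩
    · refine (List.toFinset_card_le _).trans ?_
      rw [List.length_map]
      exact h1
    · intro j hj
      obtain ⟨h, hh, hw⟩ := h3 _ ⟨j, hj, rfl⟩
      obtain ⟨e1, e2, e3⟩ := hρ h hh ⟨_, hw⟩
      refine ⟨ρ h, ?_, e1, e2, ?_⟩
      · rw [List.mem_toFinset]
        exact List.mem_map.2 ⟨h, hh, rfl⟩
      · exact (blk_pc q j _ e1 _ M hM e2 (hq j (hγ j hj) _)).1 (e3 _ hw)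
  · rintro ⟨U, h1, h2⟩
    refine ⟨((U.filter fun p => p.1 ≠ 3 ∧ p.2 < M).toList).map
      (fun p w => decide (Blk w p.1 (cb L p.2))), ?_, ?_, ?_⟩
    · rw [List.length_map, Finset.length_toList]
      exact (Finset.card_filter_le _ _).trans h1
    · intro h hh
      obtain ⟨p, hp, rfl⟩ := List.mem_map.1 hh
      rw [Finset.mem_toList, Finset.mem_filter] at hp
      refine ⟨cyl_loc _ _, ?_⟩
      intro w hw
      rw [decide_eq_true_eq] at hw
      exact ⟨p.1, hp.2.1, p.2, hp.2.2, hw⟩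
    · rintro w ⟨j, hj, rfl⟩
      obtain ⟨p, hp, e1, e2, e3⟩ := h2 j hj
      refine ⟨_, List.mem_map.2 ⟨p, ?_, rfl⟩, ?_⟩
      · rw [Finset.mem_toList, Finset.mem_filter]
        exact ⟨hp, e1, e2⟩
      · rw [decide_eq_true_eq]
        exact (blk_pc q j _ e1 _ M hM e2 (hq j (hγ j hj) _)).2 e3

/-- The base function. -/
noncomputable def base (L M : ℕ) (q : ℕ → Fin 4 → Option ℕ) (γ : ℕ → Prop) :
    (BB L ⊕ Bool → Bool) → Bool :=
  gim (WW L M) (fun w => ∃ j, γ j ∧ w = pc L q j)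

/-- The number of points of `WW`. -/
noncomputable def nW (L M : ℕ) : ℕ := Nat.card {w : BB L → Bool // WW L M w}

theorem base_iff (M K mm : ℕ) (hM : M ≤ 2 ^ L) (q : ℕ → Fin 4 → Option ℕ)
    (hq : ∀ j < mm, ∀ a v, q j a = some v → v < M)
    (hne : ∀ j < mm, ∃ a v, a ≠ 3 ∧ q j a = some v) (γ : ℕ → Prop) (hγ : ∀ j, γ j → j < mm) :
    OrOf (IsLoc 1) (base L M q γ) (nW L M + K) ↔
    ∃ U : Finset (Fin 4 × ℕ), U.card ≤ K ∧
      ∀ j, γ j → ∃ p ∈ U, p.1 ≠ 3 ∧ p.2 < M ∧ q j p.1 = some p.2 := by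
  have hact : ∀ w, (∃ j, γ j ∧ w = pc L q j) → WW L M w := by
    rintro w ⟨j, hj, rfl⟩
    obtain ⟨a, v, ha, hv⟩ := hne j (hγ j hj)
    have hvM := hq j (hγ j hj) a v hv
    exact ⟨a, ha, v, hvM, (blk_pc q j a ha v M hM hvM (hq j (hγ j hj) a)).2 hv⟩
  rw [← rows_iff M K mm hM q hq γ hγ]
  constructor
  · intro h
    refine gim_lb (WW L M) _ hact ?_ (nW L M) K rfl h
    rintro w w' ⟨j, _, rfl⟩ ⟨j', _, rfl⟩ h
    exact pc_not_adj q j j' h
  · rintro ⟨hs, h1, h2, h3⟩
    exact gim_ub (WW L M) _ hact (nW L M) K rfl hs h1 h2 h3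

end P65S
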